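import Mathlib

/-! A priori bounds for complex solutions of the equilibrium equations with free phases. -/

set_option autoImplicit false

open Set Complex Filter Topology Metric Function Asymptotics

namespace Pool.Agent.MP_765488_mp.H55

abbrev RE (d : ℕ) := EuclideanSpace ℝ (Fin d)
abbrev CE (d : ℕ) := EuclideanSpace ℂ (Fin d)

variable {d : ℕ} {ι : Type} [Fintype ι]

/-- The complexified squared distance. -/
noncomputable def rho (a : RE d) (x : CE d) : ℂ := ∑ k, (x k - (a k : ℂ)) ^ 2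

/-- Complex solutions with prescribed moduli of the weights. -/
def Sol (a : ι → RE d) (κ : ι → ℝ) (β : ℝ) (x : CE d) (y : ι → ℂ) : Prop :=
  (∀ i, rho (a i) x ≠ 0 ∧ ‖y i‖ * ‖rho (a i) x‖ ^ β = κ i) ∧
    ∀ k, ∑ i, y i * (x k - (a i k : ℂ)) = 0

/-- The points of `G` are separated by affine functions. -/
def Sep (a : ι → RE d) (G : Set ι) : Prop :=
  ∀ j ∈ G, ∃ (c₀ : ℝ) (c : Fin d → ℝ), c₀ + ∑ k, c k * a j k = 1 ∧
    ∀ i ∈ G, i ≠ j → c₀ + ∑ k, c k * a i k = 0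

/-- Subfamilies on the isotropic cone of a nonreal point are affinely independent. -/
def Geo (a : ι → RE d) : Prop :=
  ∀ (G : Set ι) (P Q : Fin d → ℝ) (s : ℝ), Q ≠ 0 →
    (∀ i ∈ G, ∑ k, (P k - s * a i k) ^ 2 = ∑ k, Q k ^ 2 ∧ ∑ k, (P k - s * a i k) * Q k = 0) →
    (∀ i ∈ G, ∀ j ∈ G, ∑ k, Q k * (a i k - a j k) = 0 ∧
      2 * ∑ k, P k * (a i k - a j k) = s * (∑ k, a i k ^ 2 - ∑ k, a j k ^ 2)) → Sep a G

/-- Normalised data along an ultrafilter. -/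
structure Lim (a : ι → RE d) (κ : ι → ℝ) (β : ℝ) (𝒰 : Ultrafilter ℕ) where
  ξ : ℕ → Fin d → ℂ
  s : ℕ → ℝ
  r : ι → ℕ → ℂ
  η : ι → ℕ → ℂ
  P : Fin d → ℝ
  Q : Fin d → ℝ
  s₀ : ℝ
  hξ : ∀ k, Tendsto (fun n => ξ n k) 𝒰 (𝓝 (P k + Q k * I))
  hs : Tendsto s 𝒰 (𝓝 s₀)
  spos : ∀ n, s n ≠ 0
  nz : s₀ = 0 → P = 0 → Q = 0 → False
  mod : ∀ i n, r i n ≠ 0 ∧ ‖η i n‖ * ‖r i n‖ ^ β = κ i
  sr : ∀ i n, s n * r i n = ∑ k, (ξ n k - s n * (a i k : ℂ)) ^ 2
  eqn : ∀ n k, ∑ i, η i n * (ξ n k - s n * (a i k : ℂ)) = 0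

theorem exists_lim (a : ι → RE d) (κ : ι → ℝ) (β : ℝ) (𝒰 : Ultrafilter ℕ) (x : ℕ → CE d)
    (y : ℕ → ι → ℂ) (h : ∀ n, Sol a κ β (x n) (y n)) :
    ∃ L : Lim a κ β 𝒰, (∀ i n, L.η i n = y n i * ((1 + ‖x n‖) ^ β : ℝ)) ∧
      ∀ i n, L.r i n = ((1 + ‖x n‖)⁻¹ : ℝ) * rho (a i) (x n) := by
  have ht : ∀ n, 0 < 1 + ‖x n‖ := fun n => by positivity
  let s : ℕ → ℝ := fun n => (1 + ‖x n‖)⁻¹
  have hs0 : ∀ n, 0 < s n := fun n => inv_pos.2 (ht n)
  have hs1 : ∀ n, ‖(s n : ℂ) • x n‖ + s n = 1 := fun n => by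
    rw [norm_smul, norm_real, Real.norm_of_nonneg (hs0 n).le]
    have := (ht n).ne'
    simp only [s]
    field_simp
    ring
  have hK : IsCompact (closedBall (0 : CE d) 1 ×ˢ Icc (0 : ℝ) 1) :=
    (isCompact_closedBall _ _).prod isCompact_Icc
  obtain ⟨⟨ξ₀, s₀⟩, -, hl⟩ := hK.ultrafilter_le_nhds' (𝒰.map fun n => ((s n : ℂ) • x n, s n))
    (Ultrafilter.mem_map.2 (univ_mem' fun n => ⟨mem_closedBall_zero_iff.2 (by
      linarith [hs1 n, hs0 n]), (hs0 n).le, by linarith [hs1 n, norm_nonneg ((s n : ℂ) • x n)]⟩))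
  have hl' : Tendsto (fun n => ((s n : ℂ) • x n, s n)) 𝒰 (𝓝 (ξ₀, s₀)) := hl
  have h1 : Tendsto (fun n => (s n : ℂ) • x n) 𝒰 (𝓝 ξ₀) := (continuous_fst.tendsto _).comp hl'
  have h2 : Tendsto s 𝒰 (𝓝 s₀) := (continuous_snd.tendsto _).comp hl'
  have h3 : ‖ξ₀‖ + s₀ = 1 :=
    tendsto_nhds_unique (h1.norm.add h2) (by simp only [hs1]; exact tendsto_const_nhds)
  refine ⟨⟨fun n k => s n * x n k, s, fun i n => s n * rho (a i) (x n),
    fun i n => y n i * ((1 + ‖x n‖) ^ β : ℝ), fun k => (ξ₀ k).re, fun k => (ξ₀ k).im, s₀,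
    fun k => ?_, h2, fun n => (hs0 n).ne', fun e1 e2 e3 => ?_, fun i n => ⟨?_, ?_⟩,
    fun i n => ?_, fun n k => ?_⟩, fun _ _ => rfl, fun _ _ => rfl⟩
  · rw [re_add_im]
    exact ((EuclideanSpace.proj (𝕜 := ℂ) k).continuous.tendsto ξ₀).comp h1
  · have : ξ₀ = 0 := by
      ext k
      exact Complex.ext (congrFun e2 k) (congrFun e3 k)
    rw [this, e1] at h3
    simp at h3
  · exact mul_ne_zero (ofReal_ne_zero.2 (hs0 n).ne') ((h n).1 i).1
  · rw [← ((h n).1 i).2, norm_mul, norm_mul, norm_real, norm_real,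
      Real.norm_of_nonneg (hs0 n).le, Real.norm_of_nonneg (Real.rpow_nonneg (ht n).le _),
      Real.mul_rpow (hs0 n).le (norm_nonneg _), Real.inv_rpow (ht n).le]
    have := (Real.rpow_pos_of_pos (ht n) β).ne'
    field_simp
  · rw [rho, Finset.mul_sum, Finset.mul_sum]
    exact Finset.sum_congr rfl fun k _ => by ring
  · have := congrArg (fun z => (s n : ℂ) * ((1 + ‖x n‖) ^ β : ℝ) * z) ((h n).2 k)
    simp only [Finset.mul_sum, mul_zero] at this
    rw [← this]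
    exact Finset.sum_congr rfl fun i _ => by ring

namespace Lim

variable {a : ι → RE d} {κ : ι → ℝ} {β : ℝ} {𝒰 : Ultrafilter ℕ} (L : Lim a κ β 𝒰)

/-- Indices whose normalised squared distance tends to zero. -/
def G : Set ι := {i | Tendsto (L.r i) 𝒰 (𝓝 0)}

theorem bd (hβ : 0 ≤ β) {i : ι} (hi : i ∉ L.G) : L.η i =O[𝒰] fun _ => (1 : ℝ) := by
  have h1 : ∃ ε > 0, ¬ ∀ᶠ n in (𝒰 : Filter ℕ), ‖L.r i n‖ < ε := by
    by_contra hn
    push Not at hn
    exact hi (Metric.tendsto_nhds.2 fun ε hε => by simpa using hn ε hε)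
  obtain ⟨ε, hε, h⟩ := h1
  refine IsBigO.of_bound (κ i / ε ^ β) ?_
  filter_upwards [Ultrafilter.eventually_not.2 h] with n hn
  rw [norm_one, mul_one, le_div_iff₀ (Real.rpow_pos_of_pos hε β), ← (L.mod i n).2]
  exact mul_le_mul_of_nonneg_left (Real.rpow_le_rpow hε.le (not_lt.1 hn) hβ) (norm_nonneg _)

theorem rpow_zero {i : ι} (hi : i ∈ L.G) {γ : ℝ} (hγ : 0 < γ) :
    Tendsto (fun n => ‖L.r i n‖ ^ γ) 𝒰 (𝓝 0) := by
  have h1 : Tendsto (fun n => ‖L.r i n‖) 𝒰 (𝓝 0) := by simpa using Tendsto.norm hi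
  simpa [Real.zero_rpow hγ.ne'] using h1.rpow_const (p := γ) (Or.inr hγ.le)

theorem not_bd (hβ : 0 < β) {i : ι} (hκ : 0 < κ i) (hi : i ∈ L.G) :
    ¬ L.η i =O[𝒰] fun _ => (1 : ℝ) := fun h => by
  have h1 := h.norm_left.mul_isLittleO ((isLittleO_one_iff ℝ).2 (L.rpow_zero hi hβ))
  simp only [(L.mod i _).2, mul_one] at h1
  exact hκ.ne' (tendsto_nhds_unique tendsto_const_nhds ((isLittleO_one_iff ℝ).1 h1))

theorem hsc : Tendsto (fun n => (L.s n : ℂ)) 𝒰 (𝓝 L.s₀) := (continuous_ofReal.tendsto _).comp L.hs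

theorem hv (i : ι) (k : Fin d) : Tendsto (fun n => L.ξ n k - L.s n * (a i k : ℂ)) 𝒰
    (𝓝 (L.P k + L.Q k * I - L.s₀ * (a i k : ℂ))) := (L.hξ k).sub (L.hsc.mul_const _)

theorem g1 {i : ι} (hi : i ∈ L.G) : ∑ k, (L.P k - L.s₀ * a i k) ^ 2 = ∑ k, L.Q k ^ 2 ∧
    ∑ k, (L.P k - L.s₀ * a i k) * L.Q k = 0 := by
  have h1 := L.hsc.mul hi
  simp only [L.sr, mul_zero] at h1
  have h2 := tendsto_nhds_unique (tendsto_finsetSum Finset.univ fun k _ => (L.hv i k).pow 2) h1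
  have h3 := congrArg re h2
  have h4 := congrArg im h2
  simp only [re_sum, im_sum, pow_two, mul_re, mul_im, sub_re, sub_im, add_re, add_im, ofReal_re,
    ofReal_im, I_re, I_im, mul_zero, mul_one, zero_mul, add_zero, zero_add, sub_zero, zero_re,
    zero_im, Finset.sum_sub_distrib] at h3 h4
  refine ⟨by simp only [pow_two]; linarith, ?_⟩
  have h5 : ∑ k, ((L.P k - L.s₀ * a i k) * L.Q k + L.Q k * (L.P k - L.s₀ * a i k)) =
      2 * ∑ k, (L.P k - L.s₀ * a i k) * L.Q k := by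
    rw [Finset.mul_sum]
    exact Finset.sum_congr rfl fun k _ => by ring
  linarith

theorem g2 {i j : ι} (hi : i ∈ L.G) (hj : j ∈ L.G) : ∑ k, L.Q k * (a i k - a j k) = 0 ∧
    2 * ∑ k, L.P k * (a i k - a j k) = L.s₀ * (∑ k, a i k ^ 2 - ∑ k, a j k ^ 2) := by
  have h0 : ∀ n, L.r i n - L.r j n = ∑ k, (-2 * L.ξ n k * ((a i k - a j k : ℝ) : ℂ) +
      L.s n * ((a i k ^ 2 - a j k ^ 2 : ℝ) : ℂ)) := fun n => by
    refine mul_left_cancel₀ (ofReal_ne_zero.2 (L.spos n)) ?_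
    rw [mul_sub, L.sr, L.sr, ← Finset.sum_sub_distrib, Finset.mul_sum]
    exact Finset.sum_congr rfl fun k _ => by push_cast; ring
  have h1 := Tendsto.sub hi hj
  simp only [h0, sub_zero] at h1
  have h2 := tendsto_nhds_unique (tendsto_finsetSum Finset.univ fun k _ =>
    (((L.hξ k).const_mul (-2)).mul_const ((a i k - a j k : ℝ) : ℂ)).add
      (L.hsc.mul_const ((a i k ^ 2 - a j k ^ 2 : ℝ) : ℂ))) h1
  have h3 := congrArg re h2
  have h4 := congrArg im h2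
  simp only [re_sum, im_sum, mul_re, mul_im, add_re, add_im, ofReal_re, neg_re, neg_im,
    re_ofNat, im_ofNat, ofReal_im, I_re, I_im, mul_zero, mul_one, zero_mul, add_zero, zero_add,
    sub_zero, zero_re, zero_im, neg_zero] at h3 h4
  constructor
  · have h5 : ∑ k, -2 * L.Q k * (a i k - a j k) = -2 * ∑ k, L.Q k * (a i k - a j k) := by
      rw [Finset.mul_sum]
      exact Finset.sum_congr rfl fun k _ => by ring
    linarith
  · have h5 : ∑ k, (-2 * L.P k * (a i k - a j k) + L.s₀ * (a i k ^ 2 - a j k ^ 2)) =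
        -2 * ∑ k, L.P k * (a i k - a j k) + L.s₀ * (∑ k, a i k ^ 2 - ∑ k, a j k ^ 2) := by
      rw [← Finset.sum_sub_distrib, Finset.mul_sum, Finset.mul_sum, ← Finset.sum_add_distrib]
      exact Finset.sum_congr rfl fun k _ => by ring
    linarith

theorem Q_ne (ha : Injective a) (hβ : 1 / 2 < β) {j : ι} (hκ : 0 < κ j) (hj : j ∈ L.G) :
    L.Q ≠ 0 := by
  classical
  intro hQ
  have hP : ∀ i ∈ L.G, ∀ k, L.P k = L.s₀ * a i k := fun i hi k => by
    have h1 := (L.g1 hi).1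
    simp only [hQ, Pi.zero_apply, ne_eq, OfNat.ofNat_ne_zero, not_false_eq_true, zero_pow,
      Finset.sum_const_zero] at h1
    have h2 := (Finset.sum_eq_zero_iff_of_nonneg fun k _ => sq_nonneg _).1 h1 k (Finset.mem_univ k)
    exact sub_eq_zero.1 (pow_eq_zero_iff two_ne_zero |>.1 h2)
  have hs : L.s₀ ≠ 0 := fun h => L.nz h (funext fun k => by rw [hP j hj k, h]; simp) hQ
  have hG : ∀ i, i ≠ j → i ∉ L.G := fun i hij hi => hij (ha (by
    ext k
    exact mul_left_cancel₀ hs ((hP i hi k).symm.trans (hP j hj k))))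
  have h1 : ∀ k, (fun n => L.η j n * (L.ξ n k - L.s n * (a j k : ℂ))) =O[𝒰] fun _ => (1 : ℝ) := by
    intro k
    have h2 : (fun n => -∑ i ∈ Finset.univ.erase j,
        L.η i n * (L.ξ n k - L.s n * (a i k : ℂ))) =O[𝒰] fun _ => (1 : ℝ) := by
      refine IsBigO.neg_left (IsBigO.fun_sum fun i hi => ?_)
      simpa using (L.bd (by linarith) (hG i (Finset.ne_of_mem_erase hi))).mul
        ((L.hv i k).isBigO_one ℝ)
    refine h2.congr_left fun n => ?_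
    have := L.eqn n k
    rw [← Finset.add_sum_erase _ _ (Finset.mem_univ j)] at this
    linear_combination -this
  have h2 : (fun n => (L.s n : ℂ)⁻¹ * ∑ k, (L.η j n * (L.ξ n k - L.s n * (a j k : ℂ))) ^ 2)
      =O[𝒰] fun _ => (1 : ℝ) := by
    simpa using ((L.hsc.inv₀ (ofReal_ne_zero.2 hs)).isBigO_one ℝ).mul
      (IsBigO.fun_sum (s := Finset.univ) fun k _ => (by simpa using (h1 k).pow 2 :
        (fun n => (L.η j n * (L.ξ n k - L.s n * (a j k : ℂ))) ^ 2) =O[𝒰] fun _ => (1 : ℝ)))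
  have h3 := h2.norm_left.mul_isLittleO
    ((isLittleO_one_iff ℝ).2 (L.rpow_zero hj (γ := 2 * β - 1) (by linarith)))
  have h4 : ∀ n, ‖(L.s n : ℂ)⁻¹ * ∑ k, (L.η j n * (L.ξ n k - L.s n * (a j k : ℂ))) ^ 2‖ *
      ‖L.r j n‖ ^ (2 * β - 1) = κ j ^ 2 := fun n => by
    have h5 : (L.s n : ℂ)⁻¹ * ∑ k, (L.η j n * (L.ξ n k - L.s n * (a j k : ℂ))) ^ 2 =
        L.η j n ^ 2 * L.r j n := by
      simp only [mul_pow]
      rw [← Finset.mul_sum, ← L.sr]
      have := ofReal_ne_zero.2 (L.spos n)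
      field_simp
    have h6 := norm_pos_iff.2 (L.mod j n).1
    rw [h5, ← (L.mod j n).2, norm_mul, norm_pow, Real.rpow_sub_one h6.ne', two_mul,
      Real.rpow_add h6]
    field_simp
  simp only [h4, mul_one] at h3
  exact (pow_pos hκ 2).ne' (tendsto_nhds_unique tendsto_const_nhds ((isLittleO_one_iff ℝ).1 h3))

theorem sum_bd (ha : Injective a) (hβ : 1 / 2 < β) (hκ : ∀ i, 0 < κ i) :
    (fun n => ∑ i, L.η i n) =O[𝒰] fun _ => (1 : ℝ) := by
  have hβ0 : 0 ≤ β := by linarith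
  rcases L.G.eq_empty_or_nonempty with hG | ⟨j, hj⟩
  · exact IsBigO.fun_sum fun i _ => L.bd hβ0 (by simp [hG])
  have hQ := L.Q_ne ha hβ (hκ j) hj
  have hA := tendsto_finsetSum Finset.univ fun k _ => (L.hv j k).mul_const (L.Q k : ℂ)
  have hA0 : ∑ k, (L.P k + L.Q k * I - L.s₀ * (a j k : ℂ)) * (L.Q k : ℂ) ≠ 0 := fun h => by
    have h4 := congrArg im h
    simp only [im_sum, mul_re, mul_im, sub_re, sub_im, add_re, add_im, ofReal_re,
      ofReal_im, I_re, I_im, mul_zero, mul_one, zero_mul, add_zero, zero_add, sub_zero,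
      zero_im] at h4
    refine hQ (funext fun k => mul_self_eq_zero.1 ?_)
    exact (Finset.sum_eq_zero_iff_of_nonneg fun k _ => mul_self_nonneg _).1 h4 k
      (Finset.mem_univ k)
  have h1 : (fun n => ∑ i, L.η i n * ((∑ k, L.Q k * (a i k - a j k) : ℝ) : ℂ)) =O[𝒰]
      fun _ => (1 : ℝ) := by
    refine IsBigO.fun_sum fun i _ => ?_
    by_cases hi : i ∈ L.G
    · simp only [(L.g2 hi hj).1, ofReal_zero, mul_zero]
      exact isBigO_zero _ _
    · simpa [mul_comm] using (L.bd hβ0 hi).const_mul_left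
        ((∑ k, L.Q k * (a i k - a j k) : ℝ) : ℂ)
  have h2 := (((hA.inv₀ hA0).isBigO_one ℝ).mul (L.hsc.isBigO_one ℝ)).mul h1
  simp only [mul_one] at h2
  refine h2.congr' ?_ EventuallyEq.rfl
  filter_upwards [hA.eventually_ne hA0] with n hn
  rw [mul_assoc, inv_mul_eq_iff_eq_mul₀ hn]
  have h3 : ∑ k, (L.Q k : ℂ) * ∑ i, L.η i n * (L.ξ n k - L.s n * (a i k : ℂ)) = 0 := by
    simp [L.eqn]
  push_cast
  simp only [Finset.mul_sum, Finset.sum_mul] at h3 ⊢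
  rw [Finset.sum_comm] at h3
  rw [← sub_eq_zero, ← neg_eq_zero, ← h3, ← Finset.sum_sub_distrib, ← Finset.sum_neg_distrib]
  refine Finset.sum_congr rfl fun i _ => ?_
  rw [← Finset.sum_sub_distrib, ← Finset.sum_neg_distrib]
  exact Finset.sum_congr rfl fun k _ => by ring

theorem not_G (ha : Injective a) (hβ : 1 / 2 < β) (hκ : ∀ i, 0 < κ i) (hg : Geo a)
    (h0 : ∀ n, ∑ i, L.η i n = 0) (j : ι) : j ∉ L.G := by
  classical
  intro hj
  obtain ⟨c₀, c, hc1, hc0⟩ := hg L.G L.P L.Q L.s₀ (L.Q_ne ha hβ (hκ j) hj) (fun i hi => L.g1 hi)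
    (fun i hi j hj => L.g2 hi hj) j hj
  have h1 : ∀ n k, ∑ i, L.η i n * (a i k : ℂ) = 0 := fun n k => by
    refine mul_left_cancel₀ (ofReal_ne_zero.2 (L.spos n)) ?_
    have h2 := L.eqn n k
    simp only [mul_sub, Finset.sum_sub_distrib, ← Finset.sum_mul, h0, zero_mul, zero_sub,
      neg_eq_zero] at h2
    rw [mul_zero, ← h2, Finset.mul_sum]
    exact Finset.sum_congr rfl fun i _ => by ring
  have h2 : ∀ n, ∑ i, L.η i n * ((c₀ + ∑ k, c k * a i k : ℝ) : ℂ) = 0 := fun n => by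
    have h3 : (c₀ : ℂ) * ∑ i, L.η i n + ∑ k, (c k : ℂ) * ∑ i, L.η i n * (a i k : ℂ) = 0 := by
      simp [h0, h1]
    rw [← h3]
    push_cast
    simp only [Finset.mul_sum, mul_add, Finset.sum_add_distrib]
    rw [Finset.sum_comm]
    congr 1
    · exact Finset.sum_congr rfl fun i _ => by ring
    · exact Finset.sum_congr rfl fun k _ => Finset.sum_congr rfl fun i _ => by ring
  refine L.not_bd (by linarith) (hκ j) hj ?_
  have h3 : (fun n => -∑ i ∈ Finset.univ.erase j,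
      L.η i n * ((c₀ + ∑ k, c k * a i k : ℝ) : ℂ)) =O[𝒰] fun _ => (1 : ℝ) := by
    refine IsBigO.neg_left (IsBigO.fun_sum fun i hi' => ?_)
    by_cases hi : i ∈ L.G
    · simp only [hc0 i hi (Finset.ne_of_mem_erase hi'), ofReal_zero, mul_zero]
      exact isBigO_zero _ _
    · simpa [mul_comm] using (L.bd (by linarith) hi).const_mul_left
        ((c₀ + ∑ k, c k * a i k : ℝ) : ℂ)
  refine h3.congr_left fun n => ?_
  have := h2 n
  rw [← Finset.add_sum_erase _ _ (Finset.mem_univ j), hc1] at this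
  push_cast at this ⊢
  linear_combination -this

end Lim

theorem est1 {a : ι → RE d} {κ : ι → ℝ} {β : ℝ} (ha : Injective a) (hβ : 1 / 2 < β)
    (hκ : ∀ i, 0 < κ i) :
    ∃ C : ℝ, ∀ x y, Sol a κ β x y → ‖∑ i, y i‖ * (1 + ‖x‖) ^ β ≤ C := by
  by_contra hn
  push Not at hn
  choose x y h hlt using fun n : ℕ => hn n
  obtain ⟨L, h1, -⟩ := exists_lim a κ β (hyperfilter ℕ) x y h
  obtain ⟨C, hC⟩ := (L.sum_bd ha hβ hκ).bound
  obtain ⟨n, hn1, hn2⟩ := (hC.and ((tendsto_natCast_atTop_atTop (R := ℝ)).mono_left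
    Nat.hyperfilter_le_atTop |>.eventually_ge_atTop C)).exists
  simp only [h1, ← Finset.sum_mul, norm_mul, norm_real, norm_one, mul_one,
    Real.norm_of_nonneg (Real.rpow_nonneg (by positivity : (0 : ℝ) ≤ 1 + ‖x n‖) β)] at hn1
  linarith [hlt n]

theorem est2 {a : ι → RE d} {κ : ι → ℝ} {β : ℝ} (ha : Injective a) (hβ : 1 / 2 < β)
    (hκ : ∀ i, 0 < κ i) (hg : Geo a) (j : ι) :
    ∃ C : ℝ, ∀ x y, Sol a κ β x y → ∑ i, y i = 0 → ‖(rho (a j) x)⁻¹‖ * (1 + ‖x‖) ≤ C := by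
  by_contra hn
  push Not at hn
  choose x y h h0 hlt using fun n : ℕ => hn n
  obtain ⟨L, h1, h2⟩ := exists_lim a κ β (hyperfilter ℕ) x y h
  refine L.not_G ha hβ hκ hg (fun n => by simp only [h1, ← Finset.sum_mul, h0, zero_mul]) j ?_
  refine tendsto_zero_iff_norm_tendsto_zero.2 ?_
  have h3 : Tendsto (fun n => ‖(rho (a j) (x n))⁻¹‖ * (1 + ‖x n‖)) (hyperfilter ℕ) atTop :=
    tendsto_atTop_mono (fun n => (hlt n).le)
      ((tendsto_natCast_atTop_atTop (R := ℝ)).mono_left Nat.hyperfilter_le_atTop)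
  refine (tendsto_inv_atTop_zero.comp h3).congr fun n => ?_
  have ht : (0 : ℝ) < 1 + ‖x n‖ := by positivity
  simp only [h2, comp, norm_mul, norm_real, norm_inv, Real.norm_of_nonneg ht.le, mul_inv, inv_inv]
  ring

end Pool.Agent.MP_765488_mp.H55
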