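import Pool.Agent.MP_765488_mp.h55.Max
import Pool.Agent.MP_765488_mp.h55.Est

/-! The complex equilibrium set with free phases is countable. -/

set_option autoImplicit false

open Set Complex Filter Topology Metric Function

namespace Pool.Agent.MP_765488_mp.H55

variable {d : ℕ} {ι : Type} [Fintype ι]

/-- A real point as a complex point. -/
noncomputable def cx (a : RE d) : CE d := WithLp.toLp 2 fun k => (a k : ℂ)

theorem norm_cx (a : RE d) : ‖cx a‖ = ‖a‖ := by simp [cx, EuclideanSpace.norm_eq]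

theorem norm_rho_le (a : RE d) (x : CE d) : ‖rho a x‖ ≤ (‖x‖ + ‖a‖) ^ 2 := by
  have h1 : ‖rho a x‖ ≤ ‖x - cx a‖ ^ 2 := by
    rw [EuclideanSpace.norm_sq_eq]
    refine (norm_sum_le _ _).trans (le_of_eq (Finset.sum_congr rfl fun k _ => ?_))
    rw [norm_pow]
    rfl
  refine h1.trans (pow_le_pow_left₀ (norm_nonneg _) ?_ 2)
  rw [← norm_cx]
  exact norm_sub_le _ _

theorem diff_coord (k : Fin d) : Differentiable ℂ fun x : CE d => x k :=
  (EuclideanSpace.proj (𝕜 := ℂ) k).differentiable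

theorem diff_rho (a : RE d) : Differentiable ℂ (rho a) :=
  Differentiable.fun_sum fun k _ => ((diff_coord k).sub_const _).pow 2

/-- The weights. -/
noncomputable def yv (β : ℝ) (c : ι → ℂ) (z : CE d × (ι → ℂ)) : ι → ℂ :=
  fun i => c i * exp (-β * z.2 i)

theorem diff_yv (β : ℝ) (c : ι → ℂ) (i : ι) :
    Differentiable ℂ fun z : CE d × (ι → ℂ) => yv β c z i := by
  unfold yv
  fun_prop

/-- The graph of the logarithms of the squared distances. -/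
def Yc (a : ι → RE d) : Set (CE d × (ι → ℂ)) := {z | ∀ i, exp (z.2 i) - rho (a i) z.1 = 0}

/-- The complex equilibrium set. -/
def Zc (a : ι → RE d) (β : ℝ) (c : ι → ℂ) : Set (CE d × (ι → ℂ)) :=
  Yc a ∩ {z | ∀ k, ∑ i, yv β c z i * (z.1 k - (a i k : ℂ)) = 0}

theorem an_Yc (a : ι → RE d) : An univ (Yc a) :=
  an_zero fun i => (Differentiable.sub (by fun_prop)
    ((diff_rho (a i)).comp differentiable_fst)).differentiableOn

theorem an_Zc (a : ι → RE d) (β : ℝ) (c : ι → ℂ) : An univ (Zc a β c) :=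
  (an_Yc a).inter (an_zero fun k => (Differentiable.fun_sum fun i _ => (diff_yv β c i).mul
    (((diff_coord k).comp differentiable_fst).sub_const _)).differentiableOn)

theorem sol_of_mem {a : ι → RE d} {β : ℝ} {c : ι → ℂ} {κ : ι → ℝ} (hc : ∀ i, ‖c i‖ = κ i)
    {z : CE d × (ι → ℂ)} (hz : z ∈ Zc a β c) : Sol a κ β z.1 (yv β c z) := by
  refine ⟨fun i => ?_, hz.2⟩
  rw [← sub_eq_zero.1 (hz.1 i)]
  refine ⟨exp_ne_zero _, ?_⟩
  rw [yv, norm_mul, hc, norm_exp, norm_exp, ← Real.exp_mul, mul_assoc, ← Real.exp_add]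
  simp [mul_comm]

theorem lam_lt {p x : CE d} (h : x ≠ p) :
    ‖1 + inner ℂ p x‖ ^ 2 / (1 + ‖x‖ ^ 2) < 1 + ‖p‖ ^ 2 := by
  rw [div_lt_iff₀ (by positivity)]
  have h1 := norm_sub_sq (𝕜 := ℂ) p x
  have h2 : 0 < ‖p - x‖ ^ 2 := pow_pos (norm_pos_iff.2 (sub_ne_zero.2 h.symm)) 2
  have h3 : ‖inner ℂ p x‖ ^ 2 ≤ (‖p‖ * ‖x‖) ^ 2 :=
    pow_le_pow_left₀ (norm_nonneg _) (norm_inner_le_norm (𝕜 := ℂ) p x) 2
  have h4 : ‖1 + inner ℂ p x‖ ^ 2 = 1 + 2 * (inner ℂ p x).re + ‖inner ℂ p x‖ ^ 2 := by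
    simp only [Complex.sq_norm, normSq_apply, add_re, add_im, one_re, one_im]
    ring
  have h5 : RCLike.re (inner ℂ p x) = (inner ℂ p x).re := rfl
  nlinarith

theorem gmp {a : ι → RE d} {β : ℝ} {κ : ι → ℝ} {Q : (ι → ℂ) → Prop}
    {H : (ι → ℂ) → (ι → ℂ) → ℂ} (hAn : ∀ c, An univ (Zc a β c ∩ {z | Q (yv β c z)}))
    (hH : ∀ c, Differentiable ℂ fun z : CE d × (ι → ℂ) => H (fun i => exp (z.2 i)) (yv β c z))
    {C : ℝ} (hC : ∀ c, (∀ i, ‖c i‖ = κ i) → ∀ z ∈ Zc a β c ∩ {z | Q (yv β c z)},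
      ‖H (fun i => exp (z.2 i)) (yv β c z)‖ ^ 2 * (1 + ‖z.1‖) ≤ C)
    {c₀ : ι → ℂ} (hc₀ : ∀ i, ‖c₀ i‖ = κ i) {z₀ : CE d × (ι → ℂ)}
    (hz₀ : z₀ ∈ Cond (Zc a β c₀ ∩ {z | Q (yv β c₀ z)})) :
    H (fun i => exp (z₀.2 i)) (yv β c₀ z₀) = 0 := by
  classical
  by_contra hne
  let Z : (ι → ℂ) → Set (CE d × (ι → ℂ)) := fun c => Zc a β c ∩ {z | Q (yv β c z)}
  let N := Fintype.card ι
  let G : (ι → ℂ) → CE d × (ι → ℂ) → ℂ := fun c z =>
    (H (fun i => exp (z.2 i)) (yv β c z) ^ 2) ^ (2 * N + 3) * ∏ i, exp (z.2 i)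
  have hG : ∀ c, Differentiable ℂ (G c) := fun c => by
    refine (((hH c).pow 2).pow _).mul ?_
    have : (fun z : CE d × (ι → ℂ) => ∏ i, exp (z.2 i)) = fun z => exp (∑ i, z.2 i) :=
      funext fun z => (exp_sum _ _).symm
    rw [this]
    fun_prop
  let Ψ : (ι → ℂ) → CE d × (ι → ℂ) → ℝ := fun c z => ‖G c z‖ * (1 + ‖z.1‖ ^ 2)
  have hsub : ∀ c, Cond (Z c) ⊆ Z c := fun c => cond_subset (hAn c).isClosed
  let A : ℝ := 1 + ∑ i, ‖a i‖
  have hA0 : 0 ≤ ∑ i, ‖a i‖ := Finset.sum_nonneg fun i _ => norm_nonneg _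
  have hA1 : 1 ≤ A := by simp only [A]; linarith
  have hρ : ∀ z ∈ Yc a, ∀ i, ‖exp (z.2 i)‖ ≤ (A * (1 + ‖z.1‖)) ^ 2 := fun z hz i => by
    rw [sub_eq_zero.1 (hz i)]
    refine (norm_rho_le _ _).trans (pow_le_pow_left₀ (by positivity) ?_ 2)
    have h1 : ‖a i‖ ≤ ∑ i, ‖a i‖ :=
      Finset.single_le_sum (f := fun i => ‖a i‖) (fun i _ => norm_nonneg _) (Finset.mem_univ i)
    simp only [A]
    nlinarith [norm_nonneg z.1]
  let C' : ℝ := C ^ (2 * N + 3) * A ^ (2 * N)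
  have hb : ∀ c, (∀ i, ‖c i‖ = κ i) → ∀ z ∈ Z c, ∀ w : ℝ, 0 ≤ w →
      ∏ i, ‖exp (z.2 i)‖ ≤ w * ((A * (1 + ‖z.1‖)) ^ 2) ^ N → Ψ c z * (1 + ‖z.1‖) ≤ w * C' := by
    intro c hc z hz w hw h
    have h1 := pow_le_pow_left₀ (by positivity) (hC c hc z hz) (2 * N + 3)
    have h2 : 1 + ‖z.1‖ ^ 2 ≤ (1 + ‖z.1‖) ^ 2 := by nlinarith [norm_nonneg z.1]
    simp only [Ψ, G, norm_mul, norm_pow, norm_prod]
    have h3 : 0 ≤ ‖H (fun i => exp (z.2 i)) (yv β c z)‖ ^ 2 := sq_nonneg _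
    generalize ‖H (fun i => exp (z.2 i)) (yv β c z)‖ ^ 2 = h0 at h1 h3 ⊢
    have ht : 0 ≤ 1 + ‖z.1‖ := by positivity
    calc h0 ^ (2 * N + 3) * (∏ i, ‖exp (z.2 i)‖) * (1 + ‖z.1‖ ^ 2) * (1 + ‖z.1‖)
        ≤ h0 ^ (2 * N + 3) * (w * ((A * (1 + ‖z.1‖)) ^ 2) ^ N) * (1 + ‖z.1‖) ^ 2 * (1 + ‖z.1‖) := by
          gcongr
      _ = w * ((h0 * (1 + ‖z.1‖)) ^ (2 * N + 3) * A ^ (2 * N)) := by
          generalize 1 + ‖z.1‖ = t
          simp only [mul_pow, ← pow_mul]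
          ring
      _ ≤ w * C' := by
          simp only [C']
          gcongr
  have hb1 : ∀ c, (∀ i, ‖c i‖ = κ i) → ∀ z ∈ Z c, Ψ c z * (1 + ‖z.1‖) ≤ C' := fun c hc z hz => by
    rw [← one_mul C']
    refine hb c hc z hz 1 zero_le_one ?_
    rw [one_mul]
    exact (Finset.prod_le_prod (fun i _ => norm_nonneg _) fun i _ => hρ z hz.1.1 i).trans
      (by simp [N])
  have hb2 : ∀ c, (∀ i, ‖c i‖ = κ i) → ∀ z ∈ Z c, ∀ j,
      Ψ c z * (1 + ‖z.1‖) ≤ ‖exp (z.2 j)‖ * C' := fun c hc z hz j => by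
    refine hb c hc z hz _ (norm_nonneg _) ?_
    rw [← Finset.mul_prod_erase _ _ (Finset.mem_univ j)]
    refine mul_le_mul_of_nonneg_left ?_ (norm_nonneg _)
    refine (Finset.prod_le_prod (fun i _ => norm_nonneg _) fun i _ => hρ z hz.1.1 i).trans ?_
    rw [Finset.prod_const]
    refine pow_le_pow_right₀ (one_le_pow₀ ?_) (Finset.card_le_univ _)
    nlinarith [norm_nonneg z.1]
  have hΨ0 : ∀ c z, 0 ≤ Ψ c z := fun c z => by positivity
  have hle : ∀ c z, Ψ c z ≤ Ψ c z * (1 + ‖z.1‖) := fun c z =>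
    le_mul_of_one_le_right (hΨ0 c z) (by linarith [norm_nonneg z.1])
  let S : Set ℝ := {v | ∃ c, (∀ i, ‖c i‖ = κ i) ∧ ∃ z ∈ Cond (Z c), Ψ c z = v}
  have hS : BddAbove S := ⟨C', by
    rintro _ ⟨c, hc, z, hz, rfl⟩
    exact (hle c z).trans (hb1 c hc z (hsub c hz))⟩
  have hS0 : Ψ c₀ z₀ ∈ S := ⟨c₀, hc₀, z₀, hz₀, rfl⟩
  have hpos : 0 < Ψ c₀ z₀ := mul_pos (norm_pos_iff.2 (mul_ne_zero
    (pow_ne_zero _ (pow_ne_zero _ hne)) (Finset.prod_ne_zero_iff.2 fun i _ => exp_ne_zero _)))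
    (by positivity)
  have hM : 0 < sSup S := hpos.trans_le (le_csSup hS hS0)
  have hC' : 0 < C' := hpos.trans_le ((hle _ _).trans (hb1 c₀ hc₀ z₀ (hsub c₀ hz₀)))
  set m := sSup S / 2 with hm
  have hm0 : 0 < m := half_pos hM
  let R : ℝ := max (C' / m) (max |Real.log (m / C')| |Real.log ((A * (C' / m)) ^ 2)| + Real.pi)
  have hnorm : ∀ v ∈ S, m ≤ v → ∃ c, (∀ i, ‖c i‖ = κ i) ∧
      ∃ z ∈ Cond (Z c), Ψ c z = v ∧ z ∈ closedBall 0 R := by
    rintro _ ⟨c, hc, z, hz, rfl⟩ hmv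
    let n : ι → ℂ := fun i => z.2 i - log (exp (z.2 i))
    have hn1 : ∀ i, exp (n i) = 1 := fun i => by
      simp only [n]
      rw [exp_sub, exp_log (exp_ne_zero _), div_self (exp_ne_zero _)]
    have hn2 : ∀ i, (n i).re = 0 := fun i => by
      have := congrArg norm (hn1 i)
      rwa [norm_exp, norm_one, Real.exp_eq_one_iff] at this
    let c' : ι → ℂ := fun i => c i * exp (-β * n i)
    let T : CE d × (ι → ℂ) → CE d × (ι → ℂ) := fun w => w - (0, n)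
    have hT1 : ∀ w, (T w).1 = w.1 := fun w => by simp [T]
    have hT2 : ∀ w i, exp ((T w).2 i) = exp (w.2 i) := fun w i => by
      simp [T, exp_sub, hn1]
    have hT3 : ∀ w, yv β c' (T w) = yv β c w := fun w => funext fun i => by
      simp only [yv, c', T, Prod.snd_sub, Pi.sub_apply]
      rw [mul_assoc, ← exp_add]
      congr 2
      ring
    have hzZ := hsub c hz
    have ht : 1 + ‖z.1‖ ≤ C' / m := by
      rw [le_div_iff₀ hm0]
      nlinarith [hb1 c hc z hzZ, norm_nonneg z.1]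
    refine ⟨c', fun i => ?_, T z, cond_image (by fun_prop) (sub_left_injective) (fun w hw => ?_) hz,
      ?_, ?_⟩
    · simp [c', norm_exp, hn2, hc]
    · refine ⟨⟨fun i => ?_, fun k => ?_⟩, ?_⟩
      · rw [hT1, hT2]
        exact hw.1.1 i
      · rw [hT1, hT3]
        exact hw.1.2 k
      · rw [mem_ofPred_eq, hT3]
        exact hw.2
    · simp only [Ψ, G, hT1, hT2, hT3]
    · rw [mem_closedBall_zero_iff, Prod.norm_def, hT1]
      refine max_le_max (by linarith) ((pi_norm_le_iff_of_nonneg (by positivity)).2 fun i => ?_)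
      have h1 : (T z).2 i = log (exp (z.2 i)) := by simp [T, n]
      have h2 : m / C' ≤ ‖exp (z.2 i)‖ := by
        rw [div_le_iff₀ hC']
        exact hmv.trans ((hle c z).trans (hb2 c hc z hzZ i))
      have h3 : ‖exp (z.2 i)‖ ≤ (A * (C' / m)) ^ 2 := (hρ z hzZ.1.1 i).trans (by gcongr)
      rw [h1]
      refine (norm_le_abs_re_add_abs_im _).trans (add_le_add ?_ ?_)
      · rw [log_re]
        exact abs_le_max_abs_abs (Real.log_le_log (by positivity) h2)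
          (Real.log_le_log (norm_pos_iff.2 (exp_ne_zero _)) h3)
      · rw [log_im]
        exact abs_arg_le_pi _
  obtain ⟨v, -, hv, hvS⟩ := exists_seq_tendsto_sSup ⟨_, hS0⟩ hS
  obtain ⟨n₀, hn₀⟩ := eventually_atTop.1 (hv.eventually_const_le (half_lt_self hM))
  choose c hc z hz hΨ hzK using fun n => hnorm (v (n + n₀)) (hvS _) (hn₀ _ (by omega))
  obtain ⟨p, -, φ, hφ, hp⟩ := (isCompact_closedBall (0 : CE d × (ι → ℂ)) R).tendsto_subseq hzK
  have hYc := (an_Yc a).isClosed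
  have hpY : p ∈ Yc a := hYc.mem_of_tendsto hp (Eventually.of_forall fun n => (hsub _ (hz _)).1.1)
  let lam : CE d × (ι → ℂ) → ℝ := fun w => ‖1 + inner ℂ p.1 w.1‖ ^ 2 / (1 + ‖w.1‖ ^ 2)
  have hlam : Continuous lam := Continuous.div (by fun_prop) (by fun_prop) fun w => by positivity
  have hlp : lam p = 1 + ‖p.1‖ ^ 2 := by
    have h1 : (1 : ℂ) + inner ℂ p.1 p.1 = ((1 + ‖p.1‖ ^ 2 : ℝ) : ℂ) := by
      rw [inner_self_eq_norm_sq_to_K]
      simp
    have h2 : (0 : ℝ) < 1 + ‖p.1‖ ^ 2 := by positivity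
    simp only [lam]
    rw [h1, norm_real, Real.norm_of_nonneg h2.le]
    field_simp
  have hD : IsCompact ((closedBall p 1 \ interior (closedBall p 1)) ∩ Yc a) :=
    ((isCompact_closedBall p 1).diff isOpen_interior).inter_right hYc
  have hD' : ∀ w ∈ (closedBall p 1 \ interior (closedBall p 1)) ∩ Yc a, lam w < lam p := by
    intro w hw
    rw [hlp]
    refine lam_lt fun h1 => hw.1.2 ?_
    have h2 : w = p := by
      refine Prod.ext h1 (funext fun i => ?_)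
      have h3 : exp (w.2 i) = exp (p.2 i) := by
        rw [sub_eq_zero.1 (hw.2 i), sub_eq_zero.1 (hpY i), h1]
      obtain ⟨k, hk⟩ := exp_eq_exp_iff_exists_int.1 h3
      have h4 : ‖w.2 i - p.2 i‖ ≤ 1 := (norm_le_pi_norm (w - p).2 i).trans
        ((norm_snd_le (w - p)).trans (mem_closedBall_iff_norm.1 hw.1.1))
      rw [hk, add_sub_cancel_left, norm_mul, norm_intCast] at h4
      have h5 : ‖(2 * Real.pi * I : ℂ)‖ = 2 * Real.pi := by simp [abs_of_pos Real.pi_pos]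
      have h6 : |(k : ℝ)| < 1 := by
        rw [h5] at h4
        nlinarith [Real.pi_gt_three, abs_nonneg (k : ℝ)]
      have h7 : k = 0 := Int.abs_lt_one_iff.1 (by exact_mod_cast h6)
      simpa [h7] using hk
    rw [h2]
    exact mem_interior_iff_mem_nhds.2 (closedBall_mem_nhds p one_pos)
  obtain ⟨l₁, hl₁, hl₁'⟩ : ∃ l₁ < lam p,
      ∀ w ∈ (closedBall p 1 \ interior (closedBall p 1)) ∩ Yc a, lam w ≤ l₁ := by
    rcases eq_empty_or_nonempty ((closedBall p 1 \ interior (closedBall p 1)) ∩ Yc a) with h | h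
    · exact ⟨lam p - 1, by linarith, by simp [h]⟩
    · obtain ⟨w, hw, hw'⟩ := hD.exists_isMaxOn h hlam.continuousOn
      exact ⟨lam w, hD' w hw, fun u hu => hw' hu⟩
  have hlim : Tendsto (fun n => v (φ n + n₀) * lam (z (φ n))) atTop (𝓝 (sSup S * lam p)) :=
    (hv.comp ((tendsto_add_atTop_nat n₀).comp hφ.tendsto_atTop)).mul ((hlam.tendsto p).comp hp)
  have hg : ∀ c w, ‖G c w * (1 + inner ℂ p.1 w.1) ^ 2‖ = Ψ c w * lam w := fun c w => by
    have h2 : (0 : ℝ) < 1 + ‖w.1‖ ^ 2 := by positivity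
    simp only [Ψ, lam, norm_mul, norm_pow]
    field_simp
  have hfin : sSup S * lam p ≤ sSup S * l₁ := by
    refine le_of_tendsto hlim ?_
    filter_upwards [hp.eventually (closedBall_mem_nhds p one_pos)] with n hn
    have hin : Differentiable ℂ fun w : CE d × (ι → ℂ) => inner ℂ p.1 w.1 :=
      (innerSL ℂ p.1).differentiable.comp differentiable_fst
    obtain ⟨y, hy, hy', hle'⟩ := ball_max (hAn (c (φ n)))
      (g := fun w => G (c (φ n)) w * (1 + inner ℂ p.1 w.1) ^ 2)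
      ((hG _).mul ((hin.const_add 1).pow 2)) (isCompact_closedBall p 1) ⟨hz (φ n), hn⟩
    rw [hg, hg, hΨ] at hle'
    refine hle'.trans (mul_le_mul (le_csSup hS ⟨_, hc _, y, hy.1, rfl⟩)
      (hl₁' y ⟨⟨hy.2, hy'⟩, (hsub _ hy.1).1.1⟩) (by positivity) hM.le)
  nlinarith

theorem countable_ne {a : ι → RE d} {β : ℝ} (ha : Injective a) (hβ : 1 / 2 < β) {c : ι → ℂ}
    (hc : ∀ i, c i ≠ 0) : (Zc a β c ∩ {z | ∑ i, yv β c z i ≠ 0}).Countable := by
  obtain ⟨C, hC⟩ := est1 (κ := fun i => ‖c i‖) ha hβ fun i => norm_pos_iff.2 (hc i)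
  by_contra hn
  obtain ⟨z, hz, hz'⟩ := exists_cond (Z := Zc a β c ∩ {z | True})
    (fun z hz => ⟨hz.1, trivial⟩) hn
  refine hz.2 (gmp (κ := fun i => ‖c i‖) (Q := fun _ => True) (H := fun _ y => ∑ i, y i)
    (C := C ^ 2) (fun c => by simpa using an_Zc a β c)
    (fun c => Differentiable.fun_sum fun i _ => diff_yv β c i) (fun c' hc' w hw => ?_)
    (fun _ => rfl) hz')
  have h1 := hC _ _ (sol_of_mem hc' hw.1)
  have ht : 1 ≤ 1 + ‖w.1‖ := by linarith [norm_nonneg w.1]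
  have h2 : 1 + ‖w.1‖ ≤ ((1 + ‖w.1‖) ^ β) ^ 2 := by
    rw [← Real.rpow_natCast, ← Real.rpow_mul (by linarith)]
    exact Real.self_le_rpow_of_one_le ht (by push_cast; linarith)
  refine le_trans ?_ (pow_le_pow_left₀ (by positivity) h1 2)
  rw [mul_pow]
  gcongr

theorem countable_eq [Nonempty ι] {a : ι → RE d} {β : ℝ} (ha : Injective a) (hβ : 1 / 2 < β)
    {c : ι → ℂ} (hc : ∀ i, c i ≠ 0) (hg : Geo a) :
    (Zc a β c ∩ {z | ∑ i, yv β c z i = 0}).Countable := by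
  obtain ⟨j⟩ := ‹Nonempty ι›
  obtain ⟨C, hC⟩ := est2 (κ := fun i => ‖c i‖) ha hβ (fun i => norm_pos_iff.2 (hc i)) hg j
  by_contra hn
  obtain ⟨z, -, hz'⟩ := exists_cond subset_rfl hn
  refine inv_ne_zero (exp_ne_zero (z.2 j)) (gmp (κ := fun i => ‖c i‖)
    (Q := fun y => ∑ i, y i = 0) (H := fun e _ => (e j)⁻¹) (C := C ^ 2)
    (fun c => (an_Zc a β c).inter (an_zero'
      (Differentiable.fun_sum fun i _ => diff_yv β c i).differentiableOn))
    (fun c => Differentiable.inv (by fun_prop) fun w => exp_ne_zero _) (fun c' hc' w hw => ?_)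
    (fun _ => rfl) hz')
  have h1 := hC _ _ (sol_of_mem hc' hw.1) hw.2
  have ht : 1 ≤ 1 + ‖w.1‖ := by linarith [norm_nonneg w.1]
  rw [← sub_eq_zero.1 (hw.1.1 j)] at h1
  refine le_trans ?_ (pow_le_pow_left₀ (by positivity) h1 2)
  rw [mul_pow]
  gcongr
  nlinarith

end Pool.Agent.MP_765488_mp.H55
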