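import Pool.Agent.MP_765488_mp.h55.Hol

/-! Complex analytic sets and the elimination of one variable. -/

set_option autoImplicit false

open MeasureTheory Set Complex Filter Topology Metric Function

namespace Pool.Agent.MP_765488_mp.H55

/-- Inside `U` the set `Z` is cut out by functions holomorphic on `U`. -/
def An {X : Type} [NormedAddCommGroup X] [NormedSpace ℂ X] (U Z : Set X) : Prop :=
  ∀ z ∈ U, z ∉ Z → ∃ f : X → ℂ, DifferentiableOn ℂ f U ∧ (∀ x ∈ U, x ∈ Z → f x = 0) ∧ f z ≠ 0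

section basic
variable {X Y : Type} [NormedAddCommGroup X] [NormedSpace ℂ X] [NormedAddCommGroup Y]
  [NormedSpace ℂ Y]

theorem An.inter {U Z Z' : Set X} (h : An U Z) (h' : An U Z') : An U (Z ∩ Z') := by
  intro z hz hn
  by_cases h1 : z ∈ Z
  · obtain ⟨f, a, b, c⟩ := h' z hz fun h2 => hn ⟨h1, h2⟩
    exact ⟨f, a, fun x hx hx' => b x hx hx'.2, c⟩
  · obtain ⟨f, a, b, c⟩ := h z hz h1
    exact ⟨f, a, fun x hx hx' => b x hx hx'.1, c⟩

theorem an_zero {U : Set X} {κ : Type} {F : κ → X → ℂ} (hF : ∀ j, DifferentiableOn ℂ (F j) U) :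
    An U {z | ∀ j, F j z = 0} := by
  intro z _ hn
  obtain ⟨j, hj⟩ := not_forall.1 hn
  exact ⟨F j, hF j, fun x _ hx => hx j, hj⟩

theorem an_zero' {U : Set X} {f : X → ℂ} (hf : DifferentiableOn ℂ f U) : An U {z | f z = 0} :=
  fun _ _ hn => ⟨f, hf, fun _ _ hx => hx, hn⟩

theorem An.comp {U Z : Set X} (h : An U Z) {V : Set Y} {T : Y → X} (hT : DifferentiableOn ℂ T V)
    (hm : MapsTo T V U) : An V (T ⁻¹' Z) := by
  intro z hz hn
  obtain ⟨f, a, b, c⟩ := h (T z) (hm hz) hn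
  exact ⟨f ∘ T, a.comp hT hm, fun x hx hx' => b _ (hm hx) hx', c⟩

theorem An.mono {U Z V : Set X} (h : An U Z) (hV : V ⊆ U) : An V Z :=
  h.comp (T := id) differentiableOn_id hV

theorem An.isClosed {Z : Set X} (h : An univ Z) : IsClosed Z := by
  refine isOpen_compl_iff.1 (isOpen_iff_mem_nhds.2 fun z hz => ?_)
  obtain ⟨f, a, b, c⟩ := h z trivial hz
  filter_upwards [(differentiableOn_univ.1 a).continuous.continuousAt.eventually_ne c] with x hx
  exact fun hx' => hx (b x trivial hx')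

/-- Newton identities: if all power sums are holomorphic, so is the product. -/
theorem newton_prod {V : Set X} {m : ℕ} {s : X → Fin m → ℂ}
    (hp : ∀ k : ℕ, DifferentiableOn ℂ (fun y => ∑ j, s y j ^ k) V) :
    DifferentiableOn ℂ (fun y => ∏ j, s y j) V := by
  have key : ∀ k : ℕ, DifferentiableOn ℂ
      (fun y => MvPolynomial.eval (s y) (MvPolynomial.esymm (Fin m) ℂ k)) V := by
    intro k
    induction k using Nat.strong_induction_on with
    | _ k ih =>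
      rcases Nat.eq_zero_or_pos k with rfl | hk
      · simp
      have hk' : (k : ℂ) ≠ 0 := by exact_mod_cast hk.ne'
      have e : (fun y => MvPolynomial.eval (s y) (MvPolynomial.esymm (Fin m) ℂ k)) = fun y =>
          (k : ℂ)⁻¹ * ((-1) ^ (k + 1) * ∑ a ∈ Finset.HasAntidiagonal.antidiagonal k with a.1 < k,
            (-1) ^ a.1 * MvPolynomial.eval (s y) (MvPolynomial.esymm (Fin m) ℂ a.1) *
              ∑ j, s y j ^ a.2) := by
        funext y
        have := congrArg (MvPolynomial.eval (s y)) (MvPolynomial.mul_esymm_eq_sum (Fin m) ℂ k)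
        simp only [map_mul, map_natCast, map_pow, map_neg, map_one, map_sum, MvPolynomial.psum,
          MvPolynomial.eval_X] at this
        rw [← this]
        field_simp
      rw [e]
      refine DifferentiableOn.const_mul (DifferentiableOn.const_mul ?_ _) _
      refine DifferentiableOn.fun_sum fun a ha => ?_
      exact ((ih a.1 (Finset.mem_filter.1 ha).2).const_mul _).mul (hp a.2)
  have := key m
  have e : Finset.powersetCard m (Finset.univ : Finset (Fin m)) = {Finset.univ} := by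
    have := Finset.powersetCard_self (Finset.univ : Finset (Fin m))
    rwa [Finset.card_univ, Fintype.card_fin] at this
  simpa [MvPolynomial.esymm, e] using this

end basic

variable {Y : Type} [NormedAddCommGroup Y] [NormedSpace ℂ Y] [FiniteDimensional ℂ Y]

theorem hol_deriv {f : Y × ℂ → ℂ} {ρ R : ℝ} (hR : 0 < R) (hRρ : R < ρ)
    (hf : DifferentiableOn ℂ f (ball 0 ρ)) :
    DifferentiableOn ℂ (fun z : Y × ℂ => deriv (fun τ => f (z.1, τ)) z.2) (ball 0 R) := by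
  have hb : ∀ (s : ℝ) (z : Y × ℂ), z ∈ ball (0 : Y × ℂ) s ↔ ‖z.1‖ < s ∧ ‖z.2‖ < s := fun s z => by
    rw [mem_ball_zero_iff, Prod.norm_def, max_lt_iff]
  have h1 := hol_circle (X := Y × ℂ) (K := fun p => ((p.2 - p.1.2) ^ 2)⁻¹ * f (p.1.1, p.2))
    (U := {p | p.2 - p.1.2 ≠ 0} ∩ {p | (p.1.1, p.2) ∈ ball (0 : Y × ℂ) ρ})
    ((isOpen_ne_fun (by fun_prop) continuous_const).inter
      (isOpen_ball.preimage (f := fun p : (Y × ℂ) × ℂ => (p.1.1, p.2)) (by fun_prop)))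
    (DifferentiableOn.mul
      (DifferentiableOn.inv (by fun_prop) fun p hp => pow_ne_zero 2 hp.1)
      (hf.comp (f := fun p : (Y × ℂ) × ℂ => (p.1.1, p.2)) (by fun_prop) fun p hp => hp.2))
    (isOpen_ball (x := 0) (ε := R)) hR
    (fun y hy τ hτ => by
      have h2 := (hb R y).1 hy
      have h3 : ‖τ‖ = R := by simpa using hτ
      refine ⟨fun h0 => ?_, (hb ρ _).2 ⟨h2.1.trans hRρ, h3.trans_lt hRρ⟩⟩
      have h4 : τ = y.2 := sub_eq_zero.1 h0
      exact h2.2.ne (h4 ▸ h3))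
  refine (h1.const_smul (2 * Real.pi * I : ℂ)⁻¹).congr fun z hz => ?_
  have h2 := (hb R z).1 hz
  refine (two_pi_I_inv_smul_circleIntegral_sub_sq_inv_smul_of_differentiable
    (U := ball 0 ρ) isOpen_ball (closedBall_subset_ball hRρ) (f := fun τ => f (z.1, τ))
    (hf.comp (f := fun τ : ℂ => (z.1, τ)) (by fun_prop) fun τ hτ =>
      (hb ρ _).2 ⟨h2.1.trans hRρ, mem_ball_zero_iff.1 hτ⟩) (mem_ball_zero_iff.2 h2.2)).symm

/-- Elimination of the last variable. -/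
theorem elim {Z : Set (Y × ℂ)} {ρ : ℝ} (hρ : 0 < ρ) (hZ : An (ball 0 ρ) Z) {f : Y × ℂ → ℂ}
    (hf : DifferentiableOn ℂ f (ball 0 ρ)) (hfZ : ∀ z ∈ ball (0 : Y × ℂ) ρ, z ∈ Z → f z = 0)
    (hreg : ¬ ∀ᶠ τ in 𝓝 (0 : ℂ), f (0, τ) = 0) :
    ∃ r δ : ℝ, 0 < r ∧ r ≤ ρ ∧ 0 < δ ∧ δ ≤ ρ ∧
      An (ball 0 δ) {y : Y | ∃ τ ∈ ball (0 : ℂ) r, (y, τ) ∈ Z} := by
  have hb : ∀ (s : ℝ) (z : Y × ℂ), z ∈ ball (0 : Y × ℂ) s ↔ ‖z.1‖ < s ∧ ‖z.2‖ < s := fun s z => by
    rw [mem_ball_zero_iff, Prod.norm_def, max_lt_iff]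
  have hsl : ∀ g : Y × ℂ → ℂ, DifferentiableOn ℂ g (ball 0 ρ) → ∀ y : Y, ‖y‖ < ρ →
      DifferentiableOn ℂ (fun τ => g (y, τ)) (ball 0 ρ) := fun g hg y hy =>
    hg.comp (f := fun τ : ℂ => (y, τ)) (by fun_prop) fun τ hτ =>
      (hb ρ _).2 ⟨hy, mem_ball_zero_iff.1 hτ⟩
  have han : AnalyticAt ℂ (fun τ => f (0, τ)) 0 :=
    (hsl f hf 0 (by simpa using hρ)).analyticAt (ball_mem_nhds 0 hρ)
  have h1 := han.eventually_eq_zero_or_eventually_ne_zero.resolve_left hreg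
  obtain ⟨ε, hε, hεb⟩ := Metric.mem_nhds_iff.1 (eventually_nhdsWithin_iff.1 h1)
  set r := min (ε / 2) (ρ / 5) with hrdef
  have hr : 0 < r := lt_min (half_pos hε) (by positivity)
  have hr5 : 5 * r ≤ ρ := by linarith [min_le_right (ε / 2) (ρ / 5)]
  have hrε : r < ε := by linarith [min_le_left (ε / 2) (ρ / 5)]
  have h2 : ∀ᶠ y in 𝓝 (0 : Y), ∀ τ ∈ sphere (0 : ℂ) r, f (y, τ) ≠ 0 := by
    refine (isCompact_sphere (0 : ℂ) r).eventually_forall_of_forall_eventually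
      (P := fun y τ => f (y, τ) ≠ 0) fun τ hτ => ?_
    have h3 : ‖τ‖ = r := by simpa using hτ
    have h4 : f (0, τ) ≠ 0 := hεb (mem_ball_zero_iff.2 (h3.trans_lt hrε)) (fun h0 => by
      rw [mem_singleton_iff.1 h0, norm_zero] at h3
      exact hr.ne h3)
    exact (hf.continuousOn.continuousAt (isOpen_ball.mem_nhds
      ((hb ρ (0, τ)).2 ⟨by simpa using hρ, by simp only; linarith⟩))).eventually_ne h4
  obtain ⟨δ₁, hδ₁, hδ₁b⟩ := Metric.mem_nhds_iff.1 (h2.and (ball_mem_nhds (0 : Y) hr))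
  have hy1 : ∀ y ∈ ball (0 : Y) δ₁, ‖y‖ < r := fun y hy => mem_ball_zero_iff.1 (hδ₁b hy).2
  have h5 : ball (0 : ℂ) (5 * r) ⊆ ball 0 ρ := ball_subset_ball hr5
  have hroots : ∀ y : Y, ∃ (m : ℕ) (ζ : Fin m → ℂ),
      y ∈ ball (0 : Y) δ₁ → IsRoots r (fun τ => f (y, τ)) ζ := fun y => by
    by_cases hy : y ∈ ball (0 : Y) δ₁
    · obtain ⟨m, ζ, h⟩ := roots hr ((hsl f hf y (by linarith [hy1 y hy])).mono h5) (hδ₁b hy).1
      exact ⟨m, ζ, fun _ => h⟩
    · exact ⟨0, Fin.elim0, fun h => (hy h).elim⟩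
  have hD := hol_deriv (R := 2 * r) (by linarith) (by linarith) hf
  have hpi : (2 * Real.pi * I : ℂ) ≠ 0 := two_pi_I_ne_zero
  have hint : ∀ g : Y × ℂ → ℂ, DifferentiableOn ℂ g (ball 0 ρ) → DifferentiableOn ℂ
      (fun y => (2 * Real.pi * I : ℂ)⁻¹ * ∮ τ in C(0, r),
        g (y, τ) * deriv (fun τ => f (y, τ)) τ / f (y, τ)) (ball 0 δ₁) := fun g hg => by
    have hs : ball (0 : Y × ℂ) (2 * r) ⊆ ball 0 ρ := ball_subset_ball (by linarith)
    refine (hol_circle (K := fun z => g z * deriv (fun τ => f (z.1, τ)) z.2 / f z)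
      (U := ball 0 (2 * r) ∩ f ⁻¹' {0}ᶜ)
      ((hf.continuousOn.mono hs).isOpen_inter_preimage isOpen_ball isOpen_compl_singleton)
      ?_ isOpen_ball hr fun y hy τ hτ => ⟨?_, (hδ₁b hy).1 τ hτ⟩).const_mul _
    · simp only [div_eq_mul_inv]
      exact (((hg.mono hs).mul hD).mono inter_subset_left).mul
        (((hf.mono hs).mono inter_subset_left).inv fun z hz => hz.2)
    · have h3 : ‖τ‖ = r := by simpa using hτ
      exact (hb _ _).2 ⟨by simp only; linarith [hy1 y hy], by simp only; linarith⟩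
  choose m ζ hζ using hroots
  have hcount : ∀ y ∈ ball (0 : Y) δ₁, (2 * Real.pi * I : ℂ)⁻¹ * (∮ τ in C(0, r),
      1 * deriv (fun τ => f (y, τ)) τ / f (y, τ)) = m y := fun y hy => by
    rw [(hζ y hy).2.2 (fun _ => 1) (differentiableOn_const 1)]
    simp only [Finset.sum_const, Finset.card_univ, Fintype.card_fin, nsmul_eq_mul, mul_one]
    field_simp
  have hmc : ContinuousAt (fun y => (m y : ℂ)) 0 :=
    (((hint (fun _ => 1) (differentiableOn_const 1)).continuousOn.congr fun y hy =>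
      (hcount y hy).symm).continuousAt (ball_mem_nhds 0 hδ₁))
  obtain ⟨δ, hδ, hδb⟩ := Metric.mem_nhds_iff.1
    ((Metric.tendsto_nhds.1 hmc 1 one_pos).and (ball_mem_nhds (0 : Y) hδ₁))
  have hm : ∀ y ∈ ball (0 : Y) δ, m y = m 0 := fun y hy => by
    have h3 : dist ((m y : ℝ) : ℂ) ((m 0 : ℝ) : ℂ) < 1 := by simpa using (hδb hy).1
    rw [dist_eq_norm, ← ofReal_sub, norm_real, Real.norm_eq_abs, abs_lt] at h3
    have h4 : m y < m 0 + 1 := by exact_mod_cast (by linarith [h3.2] : (m y : ℝ) < m 0 + 1)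
    have h5 : m 0 < m y + 1 := by exact_mod_cast (by linarith [h3.1] : (m 0 : ℝ) < m y + 1)
    omega
  have hroots' : ∀ y : Y, ∃ ξ : Fin (m 0) → ℂ,
      y ∈ ball (0 : Y) δ → IsRoots r (fun τ => f (y, τ)) ξ := fun y => by
    by_cases hy : y ∈ ball (0 : Y) δ
    · have h3 : ∃ ξ : Fin (m y) → ℂ, IsRoots r (fun τ => f (y, τ)) ξ := ⟨ζ y, hζ y (hδb hy).2⟩
      rw [hm y hy] at h3
      exact h3.imp fun _ h _ => h
    · exact ⟨0, fun h => (hy h).elim⟩
  choose ξ hξ using hroots'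
  have hin : ∀ y ∈ ball (0 : Y) (min δ ρ), ∀ τ ∈ ball (0 : ℂ) r, (y, τ) ∈ ball (0 : Y × ℂ) ρ :=
    fun y hy τ hτ => (hb ρ _).2 ⟨(mem_ball_zero_iff.1 hy).trans_le (min_le_right _ _),
      by simp only; linarith [mem_ball_zero_iff.1 hτ]⟩
  have hδm : ball (0 : Y) (min δ ρ) ⊆ ball 0 δ := ball_subset_ball (min_le_left _ _)
  refine ⟨r, min δ ρ, hr, by linarith, lt_min hδ hρ, min_le_right _ _, fun y₀ hy₀ hn => ?_⟩
  let P : Submodule ℂ (Y × ℂ → ℂ) :=
    { carrier := {g | DifferentiableOn ℂ g (ball 0 ρ) ∧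
        ∀ x ∈ ball (0 : Y × ℂ) ρ, x ∈ Z → g x = 0}
      add_mem' := fun ha hb => ⟨ha.1.add hb.1, fun x hx hx' => by
        rw [Pi.add_apply, ha.2 x hx hx', hb.2 x hx hx', add_zero]⟩
      zero_mem' := ⟨differentiableOn_const 0, fun _ _ _ => rfl⟩
      smul_mem' := fun c g hg => ⟨hg.1.const_smul c, fun x hx hx' => by
        rw [Pi.smul_apply, hg.2 x hx hx', smul_zero]⟩ }
  obtain ⟨h, hh, hh0⟩ := Module.Dual.exists_forall_mem_ne_zero_of_forall_exists P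
    (fun j : Fin (m 0) => (LinearMap.proj (y₀, ξ y₀ j) : (Y × ℂ → ℂ) →ₗ[ℂ] ℂ)) fun j => by
      have h3 := (hξ y₀ (hδm hy₀)).1 j
      obtain ⟨g, a, b, c⟩ := hZ (y₀, ξ y₀ j) (hin y₀ hy₀ _ h3) fun h4 => hn ⟨_, h3, h4⟩
      exact ⟨g, ⟨a, b⟩, c⟩
  refine ⟨fun y => ∏ j, h (y, ξ y j), newton_prod fun k => ?_, fun y hy hy' => ?_,
    Finset.prod_ne_zero_iff.2 fun j _ => hh0 j⟩
  · refine ((hint (fun z => h z ^ k) (hh.1.pow k)).mono
      (hδm.trans fun y hy => (hδb hy).2)).congr fun y hy => ?_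
    rw [(hξ y (hδm hy)).2.2 (fun τ => h (y, τ) ^ k) (((hsl h hh.1 y
      ((mem_ball_zero_iff.1 hy).trans_le (min_le_right _ _))).mono h5).pow k)]
    field_simp
  · obtain ⟨τ, hτ, hτZ⟩ := hy'
    obtain ⟨j, hj⟩ := (hξ y (hδm hy)).2.1 τ hτ (hfZ _ (hin y hy τ hτ) hτZ)
    exact Finset.prod_eq_zero (Finset.mem_univ j) (hj ▸ hh.2 _ (hin y hy τ hτ) hτZ)

end Pool.Agent.MP_765488_mp.H55
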