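import Mathlib

/-! Holomorphic dependence of circle integrals on parameters, and the roots of a holomorphic
function in a disc. -/

set_option autoImplicit false

open MeasureTheory Set Complex Filter Topology Metric Function

namespace Pool.Agent.MP_765488_mp.H55

theorem hol_circle {X : Type} [NormedAddCommGroup X] [NormedSpace ℂ X] [FiniteDimensional ℂ X]
    {K : X × ℂ → ℂ} {U : Set (X × ℂ)} (hU : IsOpen U) (hK : DifferentiableOn ℂ K U)
    {V : Set X} (hV : IsOpen V) {r : ℝ} (hr : 0 < r)
    (hVU : ∀ y ∈ V, ∀ τ ∈ sphere (0 : ℂ) r, (y, τ) ∈ U) :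
    DifferentiableOn ℂ (fun y => ∮ τ in C(0, r), K (y, τ)) V := by
  intro x₀ hx₀
  have : ProperSpace X := FiniteDimensional.proper ℂ X
  borelize X
  borelize (X →L[ℂ] ℂ)
  obtain ⟨ε, hε, hb⟩ := nhds_basis_closedBall.mem_iff.1 (hV.mem_nhds hx₀)
  have hsubU : closedBall x₀ ε ×ˢ sphere (0 : ℂ) r ⊆ U := fun z hz => hVU z.1 (hb hz.1) z.2 hz.2
  obtain ⟨M, hM⟩ := ((isCompact_closedBall x₀ ε).prod
    (isCompact_sphere (0 : ℂ) r)).exists_bound_of_continuousOn (hK.continuousOn.mono hsubU)
  have hsub : ∀ x ∈ ball x₀ (ε / 2), ball x (ε / 2) ⊆ closedBall x₀ ε := fun x hx =>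
    (ball_subset_ball' (by rw [mem_ball] at hx; linarith)).trans ball_subset_closedBall
  have hc : ∀ θ, circleMap 0 r θ ∈ sphere (0 : ℂ) r := fun θ => circleMap_mem_sphere 0 hr.le θ
  have hd : ∀ x ∈ V, ∀ θ, DifferentiableAt ℂ K (x, circleMap 0 r θ) := fun x hx θ =>
    hK.differentiableAt (hU.mem_nhds (hVU x hx _ (hc θ)))
  have hdc : Continuous fun θ => deriv (circleMap 0 r) θ := by
    simp only [deriv_circleMap]
    exact (continuous_circleMap 0 r).mul continuous_const
  have hcx : ∀ x ∈ V, Continuous fun θ => deriv (circleMap 0 r) θ • K (x, circleMap 0 r θ) :=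
    fun x hx => hdc.smul (continuous_iff_continuousAt.2 fun θ =>
      ContinuousAt.comp (f := fun θ => (x, circleMap 0 r θ)) (hd x hx θ).continuousAt
        (continuous_const.prodMk (continuous_circleMap 0 r)).continuousAt)
  have hf : ∀ x ∈ V, ∀ θ, HasFDerivAt (fun y => K (y, circleMap 0 r θ))
      ((fderiv ℂ K (x, circleMap 0 r θ)).comp (ContinuousLinearMap.inl ℂ X ℂ)) x := fun x hx θ =>
    (hd x hx θ).hasFDerivAt.comp x (hasFDerivAt_prodMk_left x _)
  have hxV : ∀ x ∈ ball x₀ (ε / 2), x ∈ V := fun x hx =>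
    hb (hsub x hx (mem_ball_self (half_pos hε)))
  have key := intervalIntegral.hasFDerivAt_integral_of_dominated_of_fderiv_le (𝕜 := ℂ)
    (μ := volume) (a := 0) (b := 2 * Real.pi)
    (F := fun x θ => deriv (circleMap 0 r) θ • K (x, circleMap 0 r θ))
    (F' := fun x θ => deriv (circleMap 0 r) θ •
      (fderiv ℂ K (x, circleMap 0 r θ)).comp (ContinuousLinearMap.inl ℂ X ℂ)) (x₀ := x₀)
    (bound := fun _ => r * (2 * M / (ε / 2))) (ball_mem_nhds x₀ (half_pos hε))
    (by filter_upwards [hV.mem_nhds hx₀] with x hx using (hcx x hx).aestronglyMeasurable)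
    ((hcx x₀ hx₀).intervalIntegrable _ _) ?_ ?_ intervalIntegrable_const
    (Eventually.of_forall fun θ _ x hx => (hf x (hxV x hx) θ).fun_const_smul _)
  · exact key.differentiableAt.differentiableWithinAt
  · refine hdc.aestronglyMeasurable.smul (Measurable.aestronglyMeasurable ?_)
    have h1 : Continuous fun L : (X × ℂ) →L[ℂ] ℂ => L.comp (ContinuousLinearMap.inl ℂ X ℂ) :=
      continuous_id.clm_comp continuous_const
    exact h1.measurable.comp ((measurable_fderiv ℂ K).comp
      (continuous_const.prodMk (continuous_circleMap 0 r)).measurable)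
  · refine Eventually.of_forall fun θ _ x hx => ?_
    rw [norm_smul, ← (hf x (hxV x hx) θ).fderiv]
    have h0 : ‖deriv (circleMap 0 r) θ‖ = r := by
      simp [deriv_circleMap, abs_of_pos hr]
    rw [h0]
    refine mul_le_mul_of_nonneg_left ?_ hr.le
    refine Complex.norm_fderiv_le_div_of_mapsTo_ball (fun y hy =>
      (hf y (hb (hsub x hx hy)) θ).differentiableAt.differentiableWithinAt)
      (fun y hy => ?_) (half_pos hε)
    rw [mem_closedBall, dist_eq_norm]
    have h1 := hM (y, circleMap 0 r θ) ⟨hsub x hx hy, hc θ⟩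
    have h2 := hM (x, circleMap 0 r θ) ⟨hsub x hx (mem_ball_self (half_pos hε)), hc θ⟩
    have h3 := norm_sub_le (K (y, circleMap 0 r θ)) (K (x, circleMap 0 r θ))
    linarith

/-- `ζ` lists the roots of `f` in the disc of radius `r`, with multiplicity. -/
def IsRoots (r : ℝ) (f : ℂ → ℂ) {m : ℕ} (ζ : Fin m → ℂ) : Prop :=
  (∀ j, ζ j ∈ ball (0 : ℂ) r) ∧ (∀ z ∈ ball (0 : ℂ) r, f z = 0 → ∃ j, ζ j = z) ∧
    ∀ φ : ℂ → ℂ, DifferentiableOn ℂ φ (ball 0 (5 * r)) →
      (∮ z in C(0, r), φ z * deriv f z / f z) = 2 * Real.pi * I * ∑ j, φ (ζ j)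

theorem roots_aux {r : ℝ} (hr : 0 < r) (n : ℕ) : ∀ (f : ℂ → ℂ) (M μ : ℝ),
    DifferentiableOn ℂ f (ball 0 (5 * r)) → (∀ z ∈ sphere (0 : ℂ) (4 * r), ‖f z‖ ≤ M) →
    (∀ z ∈ sphere (0 : ℂ) r, μ ≤ ‖f z‖) → 0 < μ → M * (2 / 3) ^ n < μ →
    ∃ (m : ℕ) (ζ : Fin m → ℂ), IsRoots r f ζ := by
  have hs1 : closedBall (0 : ℂ) r ⊆ ball 0 (5 * r) := closedBall_subset_ball (by linarith)
  have hs4 : closedBall (0 : ℂ) (4 * r) ⊆ ball 0 (5 * r) := closedBall_subset_ball (by linarith)
  induction n with
  | zero =>
    intro f M μ hf hM hμ _ h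
    exfalso
    have hz : (r : ℂ) ∈ sphere (0 : ℂ) r := by simp [abs_of_pos hr]
    have h4 : (0 : ℝ) < 4 * r := by linarith
    have h1 : ‖f r‖ ≤ M := by
      refine Complex.norm_le_of_forall_mem_frontier_norm_le (U := ball 0 (4 * r)) isBounded_ball
        ((hf.mono (closure_ball_subset_closedBall.trans hs4)).diffContOnCl) ?_ ?_
      · rw [frontier_ball _ h4.ne']
        exact hM
      · exact subset_closure (by simp [abs_of_pos hr]; linarith)
    have := hμ _ hz
    simp at h
    linarith
  | succ n ih =>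
    intro f M μ hf hM hμ hμ0 h
    have hne : ∀ z ∈ sphere (0 : ℂ) r, f z ≠ 0 := fun z hz h0 => by
      have := hμ z hz
      rw [h0, norm_zero] at this
      linarith
    have hf' : DifferentiableOn ℂ (deriv f) (ball 0 (5 * r)) := hf.deriv isOpen_ball
    by_cases h0 : ∃ a ∈ ball (0 : ℂ) r, f a = 0
    · obtain ⟨a, ha, hfa⟩ := h0
      have ha' : ‖a‖ < r := by simpa using ha
      have hg : DifferentiableOn ℂ (dslope f a) (ball 0 (5 * r)) :=
        (Complex.differentiableOn_dslope
          (isOpen_ball.mem_nhds (hs1 (ball_subset_closedBall ha)))).2 hf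
      have hfg : ∀ z, f z = (z - a) * dslope f a z := fun z => by
        have := sub_smul_dslope f a z
        rw [hfa, sub_zero, smul_eq_mul] at this
        exact this.symm
      obtain ⟨m, ζ, h1, h2, h3⟩ := ih (dslope f a) (M / (3 * r)) (μ / (2 * r)) hg
        (fun z hz => by
          have hz' : ‖z‖ = 4 * r := by simpa using hz
          have e1 := hM z hz
          rw [hfg, norm_mul] at e1
          have e2 : 3 * r ≤ ‖z - a‖ := by linarith [norm_sub_norm_le z a]
          rw [le_div_iff₀ (by linarith)]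
          nlinarith [norm_nonneg (dslope f a z)])
        (fun z hz => by
          have hz' : ‖z‖ = r := by simpa using hz
          have e1 := hμ z hz
          rw [hfg, norm_mul] at e1
          have e2 : ‖z - a‖ ≤ 2 * r := by linarith [norm_sub_le z a]
          rw [div_le_iff₀ (by linarith)]
          nlinarith [norm_nonneg (dslope f a z)])
        (by positivity)
        (by
          rw [lt_div_iff₀ (by linarith)]
          have : M / (3 * r) * (2 / 3) ^ n * (2 * r) = M * (2 / 3) ^ (n + 1) := by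
            field_simp
            ring
          rw [this]
          exact h)
      refine ⟨m + 1, Fin.cons a ζ, ?_, ?_, ?_⟩
      · intro j
        refine Fin.cases ?_ (fun j => ?_) j
        · simpa using ha'
        · simpa using h1 j
      · intro z hz hfz
        rw [hfg, mul_eq_zero] at hfz
        rcases hfz with hfz | hfz
        · exact ⟨0, by simpa using (sub_eq_zero.1 hfz).symm⟩
        · obtain ⟨j, hj⟩ := h2 z hz hfz
          exact ⟨j.succ, by simpa using hj⟩
      · intro φ hφ
        have hg' : DifferentiableOn ℂ (deriv (dslope f a)) (ball 0 (5 * r)) := hg.deriv isOpen_ball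
        have hss : sphere (0 : ℂ) r ⊆ ball 0 (5 * r) := sphere_subset_closedBall.trans hs1
        have hza : ∀ z ∈ sphere (0 : ℂ) r, z - a ≠ 0 := fun z hz h0 => hne z hz (by
          rw [hfg, h0, zero_mul])
        have hgz : ∀ z ∈ sphere (0 : ℂ) r, dslope f a z ≠ 0 := fun z hz h0 => hne z hz (by
          rw [hfg, h0, mul_zero])
        have e1 : EqOn (fun z => φ z * deriv f z / f z)
            (fun z => (z - a)⁻¹ • φ z + φ z * deriv (dslope f a) z / dslope f a z)
            (sphere (0 : ℂ) r) := by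
          intro z hz
          have hd : HasDerivAt (fun z => (z - a) * dslope f a z)
              (1 * dslope f a z + (z - a) * deriv (dslope f a) z) z :=
            ((hasDerivAt_id z).sub_const a).mul
              (hg.differentiableAt (isOpen_ball.mem_nhds (hss hz))).hasDerivAt
          have e0 : f = fun z => (z - a) * dslope f a z := funext hfg
          have e2 : deriv f z = 1 * dslope f a z + (z - a) * deriv (dslope f a) z := by
            rw [← hd.deriv, ← e0]
          have := hza z hz
          have := hgz z hz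
          simp only [smul_eq_mul]
          rw [e2, hfg z]
          field_simp
        rw [circleIntegral.integral_congr hr.le e1, circleIntegral.integral_add,
          (hφ.mono hs1).circleIntegral_sub_inv_smul ha, h3 φ hφ, Fin.sum_univ_succ]
        · simp only [smul_eq_mul, Fin.cons_zero, Fin.cons_succ]
          ring
        · refine ContinuousOn.circleIntegrable hr.le ?_
          exact ((continuousOn_id.sub continuousOn_const).inv₀ hza).smul
            (hφ.continuousOn.mono hss)
        · refine ContinuousOn.circleIntegrable hr.le ?_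
          exact ((hφ.continuousOn.mono hss).mul (hg'.continuousOn.mono hss)).div
            (hg.continuousOn.mono hss) hgz
    · push Not at h0
      refine ⟨0, Fin.elim0, fun j => j.elim0, fun z hz hfz => (h0 z hz hfz).elim, fun φ hφ => ?_⟩
      have hne' : ∀ z ∈ closedBall (0 : ℂ) r, f z ≠ 0 := fun z hz => by
        rcases (mem_closedBall.1 hz).lt_or_eq with h | h
        · exact h0 z h
        · exact hne z h
      have hd : DifferentiableOn ℂ (fun z => φ z * deriv f z / f z) (closedBall 0 r) :=
        ((hφ.mono hs1).mul (hf'.mono hs1)).div (hf.mono hs1) hne'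
      rw [(hd.mono closure_ball_subset_closedBall).diffContOnCl.circleIntegral_eq_zero hr.le]
      simp

theorem roots {r : ℝ} (hr : 0 < r) {f : ℂ → ℂ} (hf : DifferentiableOn ℂ f (ball 0 (5 * r)))
    (hne : ∀ z ∈ sphere (0 : ℂ) r, f z ≠ 0) : ∃ (m : ℕ) (ζ : Fin m → ℂ), IsRoots r f ζ := by
  have hs1 : sphere (0 : ℂ) r ⊆ ball 0 (5 * r) :=
    sphere_subset_closedBall.trans (closedBall_subset_ball (by linarith))
  have hs4 : sphere (0 : ℂ) (4 * r) ⊆ ball 0 (5 * r) :=
    sphere_subset_closedBall.trans (closedBall_subset_ball (by linarith))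
  obtain ⟨M, hM⟩ := (isCompact_sphere (0 : ℂ) (4 * r)).exists_bound_of_continuousOn
    (hf.continuousOn.mono hs4)
  obtain ⟨z, hz, hmin⟩ := (isCompact_sphere (0 : ℂ) r).exists_isMinOn
    (NormedSpace.sphere_nonempty.2 hr.le) (hf.continuousOn.mono hs1).norm
  have hμ : 0 < ‖f z‖ := norm_pos_iff.2 (hne z hz)
  have ht : Tendsto (fun n : ℕ => M * (2 / 3 : ℝ) ^ n) atTop (𝓝 (M * 0)) :=
    (tendsto_pow_atTop_nhds_zero_of_lt_one (by norm_num) (by norm_num)).const_mul M
  rw [mul_zero] at ht
  obtain ⟨n, hn⟩ := (ht.eventually (gt_mem_nhds hμ)).exists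
  exact roots_aux hr n f M _ hf hM (fun w hw => hmin hw) hμ hn

end Pool.Agent.MP_765488_mp.H55
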