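import Pool.Agent.MP_765488_mp.h55.Proj

/-! Condensation points of analytic sets and the local maximum principle. -/

set_option autoImplicit false

open MeasureTheory Set Complex Filter Topology Metric Function

namespace Pool.Agent.MP_765488_mp.H55

/-- Condensation points. -/
def Cond {X : Type} [TopologicalSpace X] (Z : Set X) : Set X :=
  {p | ∀ W ∈ 𝓝 p, ¬ (Z ∩ W).Countable}

section top
variable {X : Type} [TopologicalSpace X]

theorem isClosed_cond (Z : Set X) : IsClosed (Cond Z) := by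
  refine isOpen_compl_iff.1 (isOpen_iff_mem_nhds.2 fun p hp => ?_)
  simp only [Cond, mem_compl_iff, mem_ofPred_eq, not_forall, not_not] at hp
  obtain ⟨W, hW, hc⟩ := hp
  filter_upwards [eventually_eventually_nhds.2 hW] with z hz
  exact fun h => h W hz hc

theorem cond_subset {Z : Set X} (hZ : IsClosed Z) : Cond Z ⊆ Z := fun p hp => by
  by_contra h
  refine hp Zᶜ (hZ.isOpen_compl.mem_nhds h) ?_
  rw [inter_compl_self]
  exact countable_empty

theorem countable_diff_cond [SecondCountableTopology X] (Z : Set X) : (Z \ Cond Z).Countable := by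
  have h : ∀ p ∈ Z \ Cond Z, ∃ W ∈ 𝓝 p, (Z ∩ W).Countable := fun p hp => by
    have := hp.2
    simp only [Cond, mem_ofPred_eq, not_forall, not_not] at this
    obtain ⟨W, hW, hc⟩ := this
    exact ⟨W, hW, hc⟩
  choose! W hW hc using h
  obtain ⟨t, ht, htc, hcov⟩ := TopologicalSpace.countable_cover_nhdsWithin (f := W)
    (s := Z \ Cond Z) fun p hp => mem_nhdsWithin_of_mem_nhds (hW p hp)
  refine (htc.biUnion fun p hp => hc p (ht hp)).mono fun z hz => ?_
  obtain ⟨p, hp, hzp⟩ := mem_iUnion₂.1 (hcov hz)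
  exact mem_iUnion₂.2 ⟨p, hp, hz.1, hzp⟩

theorem exists_cond [SecondCountableTopology X] {Z S : Set X} (hS : S ⊆ Z) (h : ¬ S.Countable) :
    ∃ z ∈ S, z ∈ Cond Z := by
  by_contra hn
  push Not at hn
  exact h ((countable_diff_cond Z).mono fun z hz => mem_sdiff_of_mem (hS hz) (hn z hz))

theorem cond_image {Y : Type} [TopologicalSpace Y] {Z : Set X} {Z' : Set Y} {T : X → Y}
    (hT : Continuous T) (hi : Injective T) (hm : MapsTo T Z Z') {p : X} (hp : p ∈ Cond Z) :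
    T p ∈ Cond Z' := fun W hW hc =>
  hp (T ⁻¹' W) (hT.continuousAt.preimage_mem_nhds hW)
    ((hc.preimage_of_injOn (f := T) hi.injOn).mono fun _ hz => mem_preimage.2 (mem_inter (hm hz.1) hz.2))

end top

variable {E : Type} [NormedAddCommGroup E] [NormedSpace ℂ E] [FiniteDimensional ℂ E]

theorem exists_cond_val {Z : Set E} (hZ : An univ Z) {g : E → ℂ} (hg : Differentiable ℂ g) {p : E}
    (hfr : ∃ᶠ z in 𝓝 p, z ∈ Z ∧ g z ≠ g p) {W : Set E} (hW : W ∈ 𝓝 p) {O : Set ℂ}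
    (hO : IsOpen O) (hp : g p ∈ closure O) : ∃ z ∈ Cond Z, z ∈ W ∧ g z ∈ O := by
  have : ProperSpace E := FiniteDimensional.proper ℂ E
  obtain ⟨z, hz, hz'⟩ := exists_cond (Z := Z) (S := {z | z ∈ Z ∩ W ∧ g z ∈ O})
    (fun z hz => hz.1.1) fun h => unc hZ hg hfr hW hO hp (h.image g)
  exact ⟨z, hz', hz.1.2, hz.2⟩

/-- An accumulation point of an analytic set is a condensation point. -/
theorem acc {Z : Set E} (hZ : An univ Z) {p : E} (hfr : ∃ᶠ z in 𝓝 p, z ∈ Z ∧ z ≠ p) :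
    p ∈ Cond Z := by
  intro W hW hc
  let b := Module.finBasis ℂ E
  have h1 : ∃ i, ∃ᶠ z in 𝓝 p, z ∈ Z ∧ b.coord i z ≠ b.coord i p := by
    by_contra hn
    simp only [not_exists, not_frequently, not_and, not_not] at hn
    refine hfr ((eventually_all.2 hn).mono fun z hz h => h.2 ?_)
    exact b.ext_elem fun i => hz i h.1
  obtain ⟨i, hi⟩ := h1
  refine unc hZ (g := b.coord i) (LinearMap.toContinuousLinearMap (b.coord i)).differentiable hi hW
    isOpen_univ (by simp) ((hc.mono fun z hz => hz.1).image _)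

/-- Local maximum principle. -/
theorem ball_max {Z : Set E} (hZ : An univ Z) {g : E → ℂ} (hg : Differentiable ℂ g) {K : Set E}
    (hK : IsCompact K) {x₀ : E} (hx₀ : x₀ ∈ Cond Z ∩ K) :
    ∃ y ∈ Cond Z ∩ K, y ∉ interior K ∧ ‖g x₀‖ ≤ ‖g y‖ := by
  have : ProperSpace E := FiniteDimensional.proper ℂ E
  have hC : IsCompact (Cond Z ∩ K) := hK.inter_left (isClosed_cond Z)
  obtain ⟨y₀, hy₀, hmax⟩ := hC.exists_isMaxOn ⟨x₀, hx₀⟩ hg.continuous.norm.continuousOn
  have hT : IsCompact ((Cond Z ∩ K) ∩ {z | ‖g z‖ = ‖g y₀‖}) :=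
    hC.inter_right (isClosed_eq hg.continuous.norm continuous_const)
  let J : E ≃L[ℂ] EuclideanSpace ℂ (Fin (Module.finrank ℂ E)) :=
    ContinuousLinearEquiv.ofFinrankEq (by simp)
  obtain ⟨p, hp, hpm⟩ := hT.exists_isMaxOn ⟨y₀, hy₀, rfl⟩ J.continuous.norm.continuousOn
  have hp2 : ‖g p‖ = ‖g y₀‖ := hp.2
  refine ⟨p, hp.1, fun hint => ?_, hp2 ▸ hmax hx₀⟩
  have hK' : K ∈ 𝓝 p := mem_interior_iff_mem_nhds.1 hint
  have h1 : ∀ᶠ z in 𝓝 p, z ∈ Z → g z = g p := by
    by_contra hn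
    obtain ⟨z, hz, hzK, hzO⟩ := exists_cond_val hZ hg (p := p)
      ((not_eventually.1 hn).mono fun z hz => Classical.not_imp.1 hz) hK'
      (O := (closedBall 0 ‖g p‖)ᶜ) isClosed_closedBall.isOpen_compl (by
        rw [closure_compl, interior_closedBall']
        simp)
    have h2 : ‖g z‖ ≤ ‖g y₀‖ := hmax ⟨hz, hzK⟩
    exact hzO (mem_closedBall_zero_iff.2 (hp2 ▸ h2))
  have hZc := cond_subset hZ.isClosed
  have hmem : ∀ z ∈ Cond Z, z ∈ K ∧ (z ∈ Z → g z = g p) → ‖J z‖ ≤ ‖J p‖ := fun z hz hz' =>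
    hpm ⟨⟨hz, hz'.1⟩, by rw [mem_ofPred_eq, hz'.2 (hZc hz), hp2]⟩
  let l : E →L[ℂ] ℂ := (innerSL ℂ (J p)).comp (J : E →L[ℂ] _)
  have hl : ∀ z, l z = inner ℂ (J p) (J z) := fun z => rfl
  have hlp : (l p).re = ‖J p‖ ^ 2 := by
    rw [hl]
    exact inner_self_eq_norm_sq (𝕜 := ℂ) (J p)
  have h2 : ∀ᶠ z in 𝓝 p, z ∈ Z → l z = l p := by
    by_contra hn
    obtain ⟨z, hz, hzK, hzO⟩ := exists_cond_val hZ l.differentiable (p := p)
      ((not_eventually.1 hn).mono fun z hz => Classical.not_imp.1 hz) (inter_mem hK' h1)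
      (O := {w | (l p).re < w.re}) (isOpen_lt continuous_const continuous_re) (by
        rw [closure_setOfPred_lt_re]
        exact le_refl (l p).re)
    have h3 := hmem z hz hzK
    have h4 : (l p).re < (l z).re := hzO
    have h5 : (l z).re ≤ ‖J p‖ * ‖J z‖ := (re_le_norm _).trans (norm_inner_le_norm (𝕜 := ℂ) (J p) (J z))
    nlinarith [norm_nonneg (J p), norm_nonneg (J z)]
  refine hp.1.1 _ (inter_mem (inter_mem hK' h1) h2)
    (((countable_diff_cond Z).insert p).mono fun z hz => ?_)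
  by_cases hzc : z ∈ Cond Z
  · left
    have h3 := hmem z hzc hz.2.1
    have h4 : l z = l p := hz.2.2 hz.1
    have h5 := norm_sub_sq (𝕜 := ℂ) (J p) (J z)
    have h6 : RCLike.re (inner ℂ (J p) (J z)) = ‖J p‖ ^ 2 := by
      rw [← hlp, ← h4]
      rfl
    have h7 : ‖J p - J z‖ ^ 2 ≤ 0 := by nlinarith [norm_nonneg (J p), norm_nonneg (J z)]
    have h8 : J p - J z = 0 := norm_eq_zero.1 (pow_eq_zero_iff two_ne_zero |>.1
      (le_antisymm h7 (sq_nonneg _)))
    exact (J.injective (sub_eq_zero.1 h8)).symm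
  · exact Or.inr ⟨hz.1, hzc⟩

end Pool.Agent.MP_765488_mp.H55
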