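import Pool.Agent.MP_765488_mp.h55.Side

/-! The positions for which all real charges give finitely many equilibria. -/

set_option autoImplicit false

open Set Filter Topology Metric Function Module

namespace Pool.Agent.MP_765488_mp.H55

variable {d : ℕ} {ι : Type}

theorem sep_of_indep {a : ι → RE d} {G : Set ι} (h : AffineIndependent ℝ fun i : G => a i) :
    Sep a G := by
  classical
  have hv : LinearIndependent ℝ fun i : G => ((1 : ℝ), a i) := by
    refine linearIndependent_iff'.2 fun s g hg => affineIndependent_iff.1 h s g ?_ ?_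
    · simpa [Prod.fst_sum] using congrArg Prod.fst hg
    · simpa [Prod.snd_sum] using congrArg Prod.snd hg
  intro j hj
  obtain ⟨g, hg⟩ := LinearMap.exists_extend (Finsupp.lapply (⟨j, hj⟩ : G) ∘ₗ hv.repr)
  have h1 : ∀ i : G, g (1, a i) = Finsupp.single i (1 : ℝ) ⟨j, hj⟩ := fun i => by
    have h2 := LinearMap.congr_fun hg ⟨(1, a i), Submodule.subset_span ⟨i, rfl⟩⟩
    simp only [LinearMap.comp_apply, Submodule.subtype_apply, Finsupp.lapply_apply] at h2
    rw [h2, hv.repr_eq_single i _ rfl]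
  have h3 : ∀ x : RE d, g (1, 0) + ∑ k, g (0, EuclideanSpace.single k 1) * x k = g (1, x) := by
    intro x
    have h4 : ((1 : ℝ), x) = (1, 0) + ∑ k, x k • ((0 : ℝ), EuclideanSpace.single k (1 : ℝ)) := by
      refine Prod.ext (by simp [Prod.fst_sum]) ?_
      ext l
      simp [Prod.snd_sum, Pi.single_apply]
    rw [h4, map_add, map_sum]
    simp only [map_smul, smul_eq_mul, mul_comm]
  refine ⟨g (1, 0), fun k => g (0, EuclideanSpace.single k 1), ?_, fun i hi hij => ?_⟩
  · rw [h3, h1 ⟨j, hj⟩, Finsupp.single_eq_same]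
  · rw [h3, h1 ⟨i, hi⟩, Finsupp.single_eq_of_ne fun e => hij (congrArg Subtype.val e).symm]

theorem finrank_le_of_orth {a : ι → RE d} {G : Set ι} {n : ℕ} {v : Fin n → RE d}
    (hv : LinearIndependent ℝ v) (h : ∀ l, ∀ i ∈ G, ∀ j ∈ G, inner ℝ (v l) (a i - a j) = 0) :
    finrank ℝ (vectorSpan ℝ (a '' G)) + n ≤ d := by
  have h1 : vectorSpan ℝ (a '' G) ≤ (Submodule.span ℝ (range v))ᗮ := by
    rw [vectorSpan_def, Submodule.span_le]
    rintro _ ⟨_, ⟨i, hi, rfl⟩, _, ⟨j, hj, rfl⟩, rfl⟩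
    refine (Submodule.mem_orthogonal _ _).2 fun u hu => ?_
    induction hu using Submodule.span_induction with
    | mem u hu =>
      obtain ⟨l, rfl⟩ := hu
      exact h l i hi j hj
    | zero => exact inner_zero_left _
    | add u w _ _ hu hw => rw [inner_add_left, hu, hw, add_zero]
    | smul c u _ hu => rw [inner_smul_left, hu, mul_zero]
  have h2 := Submodule.finrank_add_finrank_orthogonal (Submodule.span ℝ (range v))
  have h3 := Submodule.finrank_mono h1
  rw [finrank_span_eq_card hv, Fintype.card_fin, finrank_euclideanSpace_fin] at h2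
  omega

theorem geo_of_indep {a : ι → RE d} (h : ∀ S : Set ι,
    (finrank ℝ (vectorSpan ℝ (a '' S)) + 2 ≤ d ∨ finrank ℝ (vectorSpan ℝ (a '' S)) + 1 ≤ d ∧
      EuclideanGeometry.Cospherical (a '' S)) → AffineIndependent ℝ fun i : S => a i) :
    Geo a := by
  intro G P Q s hQ h1 h2
  rcases eq_empty_or_nonempty G with rfl | ⟨i₀, hi₀⟩
  · exact fun j hj => hj.elim
  refine sep_of_indep (h G ?_)
  let P' : RE d := WithLp.toLp 2 P
  let Q' : RE d := WithLp.toLp 2 Q
  have hQ' : Q' ≠ 0 := fun e => hQ (congrArg WithLp.ofLp e)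
  have hin : ∀ u v : RE d, inner ℝ u v = ∑ k, u k * v k := fun u v => by
    simp [PiLp.inner_apply, mul_comm]
  have h3 : ∀ i ∈ G, ∀ j ∈ G, inner ℝ Q' (a i - a j) = 0 := fun i hi j hj => by
    rw [hin]
    exact (h2 i hi j hj).1
  have h4 : ∀ i ∈ G, ‖P' - s • a i‖ = ‖Q'‖ := fun i hi => by
    rw [← sq_eq_sq₀ (norm_nonneg _) (norm_nonneg _), EuclideanSpace.real_norm_sq_eq,
      EuclideanSpace.real_norm_sq_eq]
    exact (h1 i hi).1
  by_cases hs : s = 0
  · left
    have h5 := h4 i₀ hi₀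
    have h6 := (h1 i₀ hi₀).2
    simp only [hs, zero_smul, zero_mul, sub_zero] at h5 h6
    have h7 : inner ℝ P' Q' = 0 := (hin _ _).trans h6
    have hP' : P' ≠ 0 := norm_ne_zero_iff.1 (h5 ▸ norm_ne_zero_iff.2 hQ')
    refine finrank_le_of_orth (v := ![P', Q'])
      (linearIndependent_of_ne_zero_of_inner_eq_zero (fun l => ?_) fun l m hlm => ?_)
      fun l i hi j hj => ?_
    · fin_cases l
      exacts [hP', hQ']
    · fin_cases l <;> fin_cases m
      exacts [(hlm rfl).elim, h7, (real_inner_comm _ _).trans h7, (hlm rfl).elim]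
    · fin_cases l
      · have h8 := (h2 i hi j hj).2
        rw [hs, zero_mul] at h8
        exact (hin _ _).trans ((mul_eq_zero.1 h8).resolve_left two_ne_zero)
      · exact h3 i hi j hj
  · refine Or.inr ⟨finrank_le_of_orth (v := ![Q']) (linearIndependent_unique_iff.2 hQ')
      fun l i hi j hj => ?_, s⁻¹ • P', ‖s⁻¹‖ * ‖Q'‖, ?_⟩
    · fin_cases l
      exact h3 i hi j hj
    · rintro _ ⟨i, hi, rfl⟩
      rw [dist_comm, dist_eq_norm, ← h4 i hi, ← norm_smul, smul_sub, smul_smul,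
        inv_mul_cancel₀ hs, one_smul]

theorem Geo.comp {ι' : Type} {a : ι → RE d} (h : Geo a) {e : ι' → ι} (he : Injective e) :
    Geo (a ∘ e) := by
  intro G P Q s hQ h1 h2 j hj
  obtain ⟨c₀, c, h3, h4⟩ := h (e '' G) P Q s hQ (by rintro _ ⟨i, hi, rfl⟩; exact h1 i hi)
    (by rintro _ ⟨i, hi, rfl⟩ _ ⟨l, hl, rfl⟩; exact h2 i hi l hl) (e j) ⟨j, hj, rfl⟩
  exact ⟨c₀, c, h3, fun i hi hij => h4 (e i) ⟨i, hi, rfl⟩ fun h5 => hij (he h5)⟩

variable [Fintype ι]

theorem finite_signed {a : ι → RE d} {q : ι → ℝ} {β : ℝ} (ha : Injective a) (hβ : 1 / 2 < β)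
    (hq : q ≠ 0) (hg : Geo a) : (Eqs a q β).Finite := by
  classical
  obtain ⟨j, hj⟩ := ne_iff.1 hq
  have : Nonempty {i // q i ≠ 0} := ⟨⟨j, hj⟩⟩
  refine (finite_geo (a := a ∘ (Subtype.val : {i // q i ≠ 0} → ι)) (q := fun i => q i)
    (ha.comp Subtype.val_injective) hβ (fun i => i.2) (hg.comp Subtype.val_injective)).subset
    fun x hx => ⟨fun i => hx.1 i, ?_⟩
  rw [← hx.2, ← Finset.sum_filter_of_ne (p := fun i => q i ≠ 0)
    (fun i _ h e => h (by rw [e, zero_mul, zero_smul]))]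
  exact (Finset.sum_subtype (p := fun i => q i ≠ 0) _ (by simp)
    fun i => (q i * ‖x - a i‖ ^ (-(2 * β))) • (x - a i)).symm

theorem infinite_of_dep {a : ι → RE d} {β : ℝ} {S : Set ι}
    (hS : ¬ AffineIndependent ℝ fun i : S => a i) {X : Set (RE d)} (hX : X.Infinite) {m : ι → ℝ}
    (hm : ∀ i, m i ≠ 0) (h : ∀ x ∈ X, ∃ τ, ∀ i ∈ S, m i * ‖x - a i‖ ^ (-(2 * β)) = τ) :
    ∃ q : ι → ℝ, q ≠ 0 ∧ (Eqs a q β).Infinite := by
  classical
  rw [affineIndependent_iff] at hS
  push Not at hS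
  obtain ⟨s, w, h1, h2, j, hj, hw⟩ := hS
  let l : ι → ℝ := fun i => ∑ e ∈ s, if (e : ι) = i then w e else 0
  have hl : ∀ f : ι → RE d, ∑ i, l i • f i = ∑ e ∈ s, w e • f e := fun f => by
    simp only [l, Finset.sum_smul]
    rw [Finset.sum_comm]
    simp
  have hl0 : ∀ i, i ∉ S → l i = 0 := fun i hi =>
    Finset.sum_eq_zero fun e _ => if_neg fun h : (e : ι) = i => hi (h ▸ e.2)
  have hlj : l j = w j := by simp [l, Subtype.val_inj, hj]
  refine ⟨fun i => l i * m i, fun e => mul_ne_zero (hlj ▸ hw) (hm j) (congrFun e j),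
    (hX.sdiff (finite_range a)).mono fun x hx => ⟨fun i e => hx.2 ⟨i, e.symm⟩, ?_⟩⟩
  obtain ⟨τ, hτ⟩ := h x hx.1
  have h3 : ∀ i, (l i * m i * ‖x - a i‖ ^ (-(2 * β))) • (x - a i) = l i • τ • (x - a i) := by
    intro i
    by_cases hi : i ∈ S
    · rw [mul_assoc, hτ i hi, mul_smul]
    · simp [hl0 i hi]
  simp only [h3]
  rw [hl]
  simp only [smul_comm _ τ, ← Finset.smul_sum, smul_sub, Finset.sum_sub_distrib,
    ← Finset.sum_smul, h1, h2, zero_smul, sub_self, smul_zero]

theorem indep_of_finite {a : ι → RE d} {β : ℝ} (h : ∀ q : ι → ℝ, q ≠ 0 → (Eqs a q β).Finite)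
    (S : Set ι) (hS : finrank ℝ (vectorSpan ℝ (a '' S)) + 2 ≤ d ∨
      finrank ℝ (vectorSpan ℝ (a '' S)) + 1 ≤ d ∧ EuclideanGeometry.Cospherical (a '' S)) :
    AffineIndependent ℝ fun i : S => a i := by
  by_contra hn
  rcases eq_empty_or_nonempty S with rfl | ⟨i₀, hi₀⟩
  · exact hn (affineIndependent_of_subsingleton _ _)
  set W := vectorSpan ℝ (a '' S)
  have hW := Submodule.finrank_add_finrank_orthogonal W
  rw [finrank_euclideanSpace_fin] at hW
  let b := stdOrthonormalBasis ℝ Wᗮ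
  have hb : ∀ l, ∀ i ∈ S, inner ℝ (a i₀ - a i) (b l : RE d) = 0 := fun l i hi =>
    Submodule.inner_right_of_mem_orthogonal
      (vsub_mem_vectorSpan ℝ (mem_image_of_mem a hi₀) (mem_image_of_mem a hi)) (b l).2
  have hb1 : ∀ l, ‖(b l : RE d)‖ = 1 := fun l => b.orthonormal.1 l
  rcases hS with h1 | ⟨h1, c, r, hc⟩
  · let v : RE d := b ⟨0, by omega⟩
    let w : RE d := b ⟨1, by omega⟩
    have hvw : inner ℝ v w = 0 := b.orthonormal.2 (by simp)
    have hv : inner ℝ v v = 1 := by rw [real_inner_self_eq_norm_sq, hb1, one_pow]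
    have hw : inner ℝ w w = 1 := by rw [real_inner_self_eq_norm_sq, hb1, one_pow]
    let f : ℝ → RE d := fun t => a i₀ + (t • v + √(1 - t ^ 2) • w)
    have hf : Injective f := fun t u e => by
      have h2 := congrArg (inner ℝ v) (add_left_cancel e)
      simpa only [inner_add_right, inner_smul_right, hvw, hv, mul_one, mul_zero, add_zero] using h2
    obtain ⟨q, hq, hq'⟩ := infinite_of_dep (β := β) hn
      ((Ioo_infinite (zero_lt_one' ℝ)).image hf.injOn)
      (m := fun i => √(‖a i₀ - a i‖ ^ 2 + 1) ^ (2 * β))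
      (fun i => (Real.rpow_pos_of_pos (by positivity) _).ne') (by
        rintro _ ⟨t, ht, rfl⟩
        refine ⟨1, fun i hi => ?_⟩
        have h2 : ‖f t - a i‖ ^ 2 = ‖a i₀ - a i‖ ^ 2 + 1 := by
          have h3 : 0 ≤ 1 - t ^ 2 := by nlinarith [ht.1, ht.2]
          rw [show f t - a i = (a i₀ - a i) + (t • v + √(1 - t ^ 2) • w) by simp only [f]; abel,
            norm_add_sq_real, ← real_inner_self_eq_norm_sq (t • v + _)]
          simp only [inner_add_left, inner_add_right, inner_smul_left, inner_smul_right, hvw, hv,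
            hw, real_inner_comm v w, hb _ i hi, v, w, conj_trivial]
          nlinarith [Real.mul_self_sqrt h3]
        rw [← h2, Real.sqrt_sq (norm_nonneg _), Real.rpow_neg (norm_nonneg _), mul_inv_cancel₀]
        refine (Real.rpow_pos_of_pos ?_ _).ne'
        exact (norm_nonneg _).lt_of_ne' fun e => by
          rw [e] at h2
          nlinarith [sq_nonneg ‖a i₀ - a i‖])
    exact hq' (h q hq)
  · let v : RE d := b ⟨0, by omega⟩
    have hv0 : v ≠ 0 := norm_ne_zero_iff.1 (by rw [hb1]; exact one_ne_zero)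
    have hf : Injective fun t : ℝ => c + t • v := fun t u e =>
      smul_left_injective ℝ hv0 (add_left_cancel e)
    obtain ⟨q, hq, hq'⟩ := infinite_of_dep (β := β) hn (infinite_range_of_injective hf)
      (m := fun _ => 1) (fun _ => one_ne_zero) (by
        rintro _ ⟨t, rfl⟩
        refine ⟨‖c + t • v - a i₀‖ ^ (-(2 * β)), fun i hi => ?_⟩
        have h2 : ∀ j ∈ S, ‖c + t • v - a j‖ ^ 2 =
            r ^ 2 + 2 * (t * inner ℝ (c - a i₀) v) + ‖t • v‖ ^ 2 := fun j hj => by
          rw [add_sub_right_comm, norm_add_sq_real, ← dist_eq_norm, dist_comm,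
            hc _ (mem_image_of_mem a hj), inner_smul_right, ← sub_add_sub_cancel c (a i₀),
            inner_add_left, hb _ j hj, add_zero]
        rw [one_mul, (sq_eq_sq₀ (norm_nonneg _) (norm_nonneg _)).1
          ((h2 i hi).trans (h2 i₀ hi₀).symm)])
    exact hq' (h q hq)

end Pool.Agent.MP_765488_mp.H55
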