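import Pool.Agent.MP_765488_mp.h55.Elim

/-! A holomorphic function which is not locally constant on an analytic set at a point takes all
nearby values on the set. -/

set_option autoImplicit false

open MeasureTheory Set Complex Filter Topology Metric Function

namespace Pool.Agent.MP_765488_mp.H55

theorem ident {X : Type} [NormedAddCommGroup X] [NormedSpace ℂ X] {g : X → ℂ} {ρ : ℝ}
    (hg : DifferentiableOn ℂ g (ball 0 ρ)) (h : ∀ v : X, ∀ᶠ t in 𝓝 (0 : ℂ), g (t • v) = 0) :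
    ∀ x ∈ ball (0 : X) ρ, g x = 0 := by
  intro x hx
  have hρ : 0 < ρ := pos_of_mem_ball hx
  let L : ℂ →L[ℂ] X := ContinuousLinearMap.toSpanSingleton ℂ x
  have hL : ∀ t, L t = t • x := fun t => rfl
  have ho : IsOpen (L ⁻¹' ball 0 ρ) := isOpen_ball.preimage L.continuous
  have hc : Convex ℝ (L ⁻¹' ball 0 ρ) :=
    (convex_ball (0 : X) ρ).linear_preimage (L.restrictScalars ℝ).toLinearMap
  have hd : DifferentiableOn ℂ (g ∘ L) (L ⁻¹' ball 0 ρ) :=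
    hg.comp L.differentiable.differentiableOn fun t ht => ht
  have := (hd.analyticOnNhd ho).eqOn_zero_of_preconnected_of_eventuallyEq_zero hc.isPreconnected
    (z₀ := 0) (by simpa using hρ) (h x) (x := 1) (by simpa [hL] using hx)
  simpa [hL] using this

theorem ident' {X : Type} [NormedAddCommGroup X] [NormedSpace ℂ X] {g : X → ℂ} {ρ : ℝ}
    (hg : DifferentiableOn ℂ g (ball 0 ρ)) (h : ∀ᶠ x in 𝓝 (0 : X), g x = 0) :
    ∀ x ∈ ball (0 : X) ρ, g x = 0 :=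
  ident hg fun v => by
    have : Tendsto (fun t : ℂ => t • v) (𝓝 0) (𝓝 0) := by
      have h1 : Continuous fun t : ℂ => t • v := by fun_prop
      simpa using h1.tendsto 0
    exact this.eventually h

variable {E : Type} [NormedAddCommGroup E] [NormedSpace ℂ E] [FiniteDimensional ℂ E]

omit [NormedSpace ℂ E] [FiniteDimensional ℂ E] in
theorem mem_ball_prod (s : ℝ) (z : E × ℂ) : z ∈ ball (0 : E × ℂ) s ↔ ‖z.1‖ < s ∧ ‖z.2‖ < s := by
  rw [mem_ball_zero_iff, Prod.norm_def, max_lt_iff]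

theorem div_one_step {g : E × ℂ → ℂ} {ρ : ℝ} (hg : DifferentiableOn ℂ g (ball 0 ρ))
    (h0 : ∀ x ∈ ball (0 : E) ρ, g (x, 0) = 0) :
    ∃ g₁ : E × ℂ → ℂ, DifferentiableOn ℂ g₁ (ball 0 ρ) ∧
      ∀ z ∈ ball (0 : E × ℂ) ρ, g z = z.2 * g₁ z := by
  refine ⟨fun z => dslope (fun τ => g (z.1, τ)) 0 z.2, fun z₀ hz₀ => ?_, fun z hz => ?_⟩
  · obtain ⟨R, hR1, hR2⟩ := exists_between (mem_ball_zero_iff.1 hz₀)
    have hR : 0 < R := (norm_nonneg _).trans_lt hR1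
    have h1 := hol_circle (X := E × ℂ) (K := fun p => (p.2 - p.1.2)⁻¹ * (p.2⁻¹ * g (p.1.1, p.2)))
      (U := ({p | p.2 - p.1.2 ≠ 0} ∩ {p | p.2 ≠ 0}) ∩ {p | (p.1.1, p.2) ∈ ball (0 : E × ℂ) ρ})
      (((isOpen_ne_fun (by fun_prop) continuous_const).inter
        (isOpen_ne_fun (by fun_prop) continuous_const)).inter
        (isOpen_ball.preimage (f := fun p : (E × ℂ) × ℂ => (p.1.1, p.2)) (by fun_prop)))
      (DifferentiableOn.mul (DifferentiableOn.inv (by fun_prop) fun p hp => hp.1.1)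
        (DifferentiableOn.mul (DifferentiableOn.inv (by fun_prop) fun p hp => hp.1.2)
        (hg.comp (f := fun p : (E × ℂ) × ℂ => (p.1.1, p.2)) (by fun_prop) fun p hp => hp.2)))
      (isOpen_ball (x := 0) (ε := R)) hR
      (fun y hy τ hτ => by
        have h2 := (mem_ball_prod R y).1 hy
        have h3 : ‖τ‖ = R := by simpa using hτ
        refine ⟨⟨fun h0 => ?_, fun h0 => ?_⟩,
          (mem_ball_prod ρ _).2 ⟨h2.1.trans hR2, h3.trans_lt hR2⟩⟩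
        · have h4 : τ = y.2 := sub_eq_zero.1 h0
          exact h2.2.ne (h4 ▸ h3)
        · have h4 : τ = 0 := h0
          rw [h4, norm_zero] at h3
          exact hR.ne h3)
    have h2 : DifferentiableOn ℂ (fun z : E × ℂ => dslope (fun τ => g (z.1, τ)) 0 z.2)
        (ball 0 R) := by
      refine (h1.const_mul (2 * Real.pi * I : ℂ)⁻¹).congr fun z hz => ?_
      have h2 := (mem_ball_prod R z).1 hz
      have h3 : DifferentiableOn ℂ (dslope (fun τ => g (z.1, τ)) 0) (ball 0 ρ) :=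
        (Complex.differentiableOn_dslope (ball_mem_nhds _ (hR.trans hR2))).2
          (hg.comp (f := fun τ : ℂ => (z.1, τ)) (by fun_prop) fun τ hτ =>
            (mem_ball_prod ρ _).2 ⟨h2.1.trans hR2, mem_ball_zero_iff.1 hτ⟩)
      have h4 := (h3.mono (closedBall_subset_ball hR2)).circleIntegral_sub_inv_smul
        (mem_ball_zero_iff.2 h2.2)
      rw [circleIntegral.integral_congr hR.le
        (g := fun τ => (τ - z.2)⁻¹ • dslope (fun τ => g (z.1, τ)) 0 τ), h4, smul_eq_mul]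
      · have := two_pi_I_ne_zero
        field_simp
      · intro τ hτ
        have h5 : τ ≠ 0 := fun h0 => by
          rw [h0, mem_sphere_zero_iff_norm, norm_zero] at hτ
          exact hR.ne hτ
        simp only [dslope_of_ne _ h5, slope_def_field, smul_eq_mul,
          h0 z.1 (mem_ball_zero_iff.2 (h2.1.trans hR2)), sub_zero]
        field_simp
    exact (h2.differentiableAt (isOpen_ball.mem_nhds
      (mem_ball_zero_iff.2 hR1))).differentiableWithinAt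
  · have := sub_smul_dslope (fun τ => g (z.1, τ)) 0 z.2
    rw [h0 z.1 (mem_ball_zero_iff.2 ((mem_ball_prod ρ z).1 hz).1), sub_zero, sub_zero,
      smul_eq_mul] at this
    exact this.symm

theorem div_out {f : E × ℂ → ℂ} {ρ : ℝ} (hf : DifferentiableOn ℂ f (ball 0 ρ)) {z₁ : E × ℂ}
    (hz₁ : z₁ ∈ ball (0 : E × ℂ) ρ) (hne : f z₁ ≠ 0) :
    ∃ f₀ : E × ℂ → ℂ, DifferentiableOn ℂ f₀ (ball 0 ρ) ∧
      (∀ z ∈ ball (0 : E × ℂ) ρ, z.2 ≠ 0 → f z = 0 → f₀ z = 0) ∧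
      ∃ x ∈ ball (0 : E) ρ, f₀ (x, 0) ≠ 0 := by
  by_contra hcon
  push Not at hcon
  have key : ∀ k : ℕ, ∃ g : E × ℂ → ℂ, DifferentiableOn ℂ g (ball 0 ρ) ∧
      ∀ z ∈ ball (0 : E × ℂ) ρ, f z = z.2 ^ k * g z := by
    intro k
    induction k with
    | zero => exact ⟨f, hf, fun z _ => by simp⟩
    | succ k ih =>
      obtain ⟨g, hg, hfg⟩ := ih
      obtain ⟨g₁, hg₁, h1⟩ := div_one_step hg (hcon g hg fun z hz h2 h3 => by
        rw [hfg z hz] at h3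
        exact (mul_eq_zero.1 h3).resolve_left (pow_ne_zero k h2))
      exact ⟨g₁, hg₁, fun z hz => by rw [hfg z hz, h1 z hz]; ring⟩
  have h1 := (mem_ball_prod ρ z₁).1 hz₁
  have hρ : 0 < ρ := pos_of_mem_ball hz₁
  have hin : ∀ τ ∈ ball (0 : ℂ) ρ, (z₁.1, τ) ∈ ball (0 : E × ℂ) ρ := fun τ hτ =>
    (mem_ball_prod ρ _).2 ⟨h1.1, mem_ball_zero_iff.1 hτ⟩
  have hsl : ∀ g : E × ℂ → ℂ, DifferentiableOn ℂ g (ball 0 ρ) →
      DifferentiableOn ℂ (fun τ => g (z₁.1, τ)) (ball 0 ρ) := fun g hg =>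
    hg.comp (f := fun τ : ℂ => (z₁.1, τ)) (by fun_prop) hin
  have h2 : analyticOrderAt (fun τ => f (z₁.1, τ)) 0 = ⊤ := by
    refine ENat.eq_top_iff_forall_ge.2 fun k => ?_
    obtain ⟨g, hg, hfg⟩ := key k
    refine (natCast_le_analyticOrderAt ((hsl f hf).analyticAt (ball_mem_nhds 0 hρ))).2
      ⟨_, (hsl g hg).analyticAt (ball_mem_nhds 0 hρ), ?_⟩
    filter_upwards [ball_mem_nhds (0 : ℂ) hρ] with τ hτ
    rw [hfg _ (hin τ hτ), sub_zero, smul_eq_mul]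
  exact hne (ident' (hsl f hf) (analyticOrderAt_eq_top.1 h2) z₁.2 (mem_ball_zero_iff.2 h1.2))

theorem proj_aux (n : ℕ) : ∀ (E : Type) [NormedAddCommGroup E] [NormedSpace ℂ E]
    [FiniteDimensional ℂ E], Module.finrank ℂ E = n → ∀ (Z : Set (E × ℂ)) (ρ : ℝ), 0 < ρ →
    An (ball 0 ρ) Z → (∃ᶠ z in 𝓝 (0 : E × ℂ), z ∈ Z ∧ z.2 ≠ 0) →
    ∀ᶠ w in 𝓝[≠] (0 : ℂ), ∃ x, (x, w) ∈ Z ∩ ball 0 ρ := by
  induction n using Nat.strong_induction_on with
  | _ n ih =>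
  intro E _ _ _ hn Z ρ hρ hZ hfr
  by_cases hall : ball (0 : E × ℂ) ρ ⊆ Z
  · filter_upwards [mem_nhdsWithin_of_mem_nhds (ball_mem_nhds (0 : ℂ) hρ)] with w hw
    have : ((0 : E), w) ∈ ball (0 : E × ℂ) ρ :=
      (mem_ball_prod ρ _).2 ⟨by simpa using hρ, mem_ball_zero_iff.1 hw⟩
    exact ⟨0, hall this, this⟩
  obtain ⟨z₁, hz₁, hz₁Z⟩ := not_subset.1 hall
  obtain ⟨f, hf, hfZ, hfz⟩ := hZ z₁ hz₁ hz₁Z
  obtain ⟨f₀, hf₀, hf₀Z, x₁, hx₁, hx₁'⟩ := div_out hf hz₁ hfz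
  have hs0 : DifferentiableOn ℂ (fun x : E => f₀ (x, 0)) (ball 0 ρ) :=
    hf₀.comp (f := fun x : E => (x, (0 : ℂ))) (by fun_prop) fun x hx =>
      (mem_ball_prod ρ _).2 ⟨mem_ball_zero_iff.1 hx, by simpa using hρ⟩
  obtain ⟨v, hv⟩ : ∃ v : E, ¬ ∀ᶠ t in 𝓝 (0 : ℂ), f₀ (t • v, 0) = 0 :=
    not_forall.1 fun h => hx₁' (ident hs0 h x₁ hx₁)
  have hfr' : ∃ᶠ z in 𝓝 (0 : E × ℂ), (z ∈ Z ∧ f₀ z = 0) ∧ z.2 ≠ 0 :=
    (hfr.and_eventually (ball_mem_nhds _ hρ)).mono fun z hz =>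
      ⟨⟨hz.1.1, hf₀Z z hz.2 hz.1.2 (hfZ z hz.2 hz.1.1)⟩, hz.1.2⟩
  have hv0 : v ≠ 0 := by
    rintro rfl
    have h1 : f₀ 0 ≠ 0 := fun h => hv (Eventually.of_forall fun t => by
      rw [smul_zero]; exact h)
    obtain ⟨z, hz, hz'⟩ := (hfr'.and_eventually
      ((hf₀.continuousOn.continuousAt (ball_mem_nhds _ hρ)).eventually_ne h1)).exists
    exact hz' hz.1.2
  obtain ⟨φ, hφ⟩ := SeparatingDual.exists_eq_one (R := ℂ) hv0
  have hφ0 : (φ : E →ₗ[ℂ] ℂ) ≠ 0 := fun h => by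
    have : φ v = 0 := LinearMap.congr_fun h v
    rw [hφ] at this
    exact one_ne_zero this
  let E' := LinearMap.ker (φ : E →ₗ[ℂ] ℂ)
  have hrk : Module.finrank ℂ E' + 1 = Module.finrank ℂ E :=
    Module.Dual.finrank_ker_add_one_of_ne_zero hφ0
  let T : (E' × ℂ) × ℂ → E × ℂ := fun p => ((p.1.1 : E) + p.2 • v, p.1.2)
  have hTd : Differentiable ℂ T := by
    have h1 : Differentiable ℂ fun p : (E' × ℂ) × ℂ => (p.1.1 : E) :=
      E'.subtypeL.differentiable.comp (by fun_prop)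
    exact (h1.add (by fun_prop)).prodMk (by fun_prop)
  let T' : E × ℂ → (E' × ℂ) × ℂ := fun z =>
    ((⟨z.1 - φ z.1 • v, by simp [E', hφ]⟩, z.2), φ z.1)
  have hT'c : Continuous T' := by
    refine (Continuous.prodMk (Continuous.subtype_mk (by fun_prop) _) ?_).prodMk ?_ <;> fun_prop
  have hTT' : ∀ z, T (T' z) = z := fun z => by simp [T, T']
  have hT0 : T 0 = 0 := by simp [T]
  have hT'0 : T' 0 = 0 := by
    simp only [T']
    ext <;> simp
  have hnh : T ⁻¹' ball (0 : E × ℂ) ρ ∈ 𝓝 0 :=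
    hTd.continuous.continuousAt.preimage_mem_nhds (by rw [hT0]; exact ball_mem_nhds _ hρ)
  obtain ⟨ρ', hρ', hρ'b⟩ := Metric.mem_nhds_iff.1 hnh
  obtain ⟨r, δ, hr, hrρ, hδ, hδρ, hAn⟩ := elim (Z := T ⁻¹' (Z ∩ {z | f₀ z = 0})) hρ'
    ((hZ.inter (an_zero' hf₀)).comp hTd.differentiableOn hρ'b) (f := f₀ ∘ T)
    (hf₀.comp hTd.differentiableOn hρ'b) (fun z _ hz => hz.2) (by simpa [T] using hv)
  have ht : Tendsto T' (𝓝 0) (𝓝 0) := hT'0 ▸ hT'c.tendsto 0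
  have ht1 : Tendsto (fun z => (T' z).1) (𝓝 0) (𝓝 0) := (continuous_fst.tendsto 0).comp ht
  have ht2 : Tendsto (fun z => (T' z).2) (𝓝 0) (𝓝 0) := (continuous_snd.tendsto 0).comp ht
  have h3 := ih (Module.finrank ℂ E') (by omega) E' rfl _ δ hδ hAn (ht1.frequently
    ((hfr'.and_eventually (ht2.eventually (ball_mem_nhds _ hr))).mono fun z hz =>
      ⟨⟨(T' z).2, hz.2, by
        change T (T' z) ∈ Z ∩ {z | f₀ z = 0}
        rw [hTT']
        exact hz.1.1⟩, hz.1.2⟩))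
  filter_upwards [h3] with w hw
  obtain ⟨y, ⟨τ, hτ, hτZ⟩, hy⟩ := hw
  exact ⟨(y : E) + τ • v, hτZ.1, hρ'b ((mem_ball_prod ρ' ((y, w), τ)).2
    ⟨(mem_ball_zero_iff.1 hy).trans_le hδρ, (mem_ball_zero_iff.1 hτ).trans_le hrρ⟩)⟩

/-- Openness of a holomorphic function on an analytic set. -/
theorem proj {Z : Set E} (hZ : An univ Z) {g : E → ℂ} (hg : Differentiable ℂ g) {p : E}
    (hfr : ∃ᶠ z in 𝓝 p, z ∈ Z ∧ g z ≠ g p) {W : Set E} (hW : W ∈ 𝓝 p) :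
    ∀ᶠ w in 𝓝[≠] (0 : ℂ), ∃ z ∈ Z ∩ W, g z = g p + w := by
  obtain ⟨ρ, hρ, hρW⟩ := Metric.mem_nhds_iff.1 hW
  have hT : Differentiable ℂ fun z : E × ℂ => z.1 + p := by fun_prop
  have hG : Differentiable ℂ fun z : E × ℂ => g (z.1 + p) - g p - z.2 :=
    ((hg.comp hT).sub_const _).sub differentiable_snd
  have ht : Tendsto (fun z => (z - p, g z - g p)) (𝓝 p) (𝓝 0) := by
    have : Continuous fun z => (z - p, g z - g p) :=
      (continuous_id.sub continuous_const).prodMk (hg.continuous.sub continuous_const)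
    exact this.tendsto' p 0 (by simp)
  have h := proj_aux _ E rfl
    ((fun z : E × ℂ => z.1 + p) ⁻¹' Z ∩ {z | g (z.1 + p) - g p - z.2 = 0}) ρ hρ
    ((hZ.comp hT.differentiableOn (mapsTo_univ _ _)).inter (an_zero' hG.differentiableOn))
    (ht.frequently (hfr.mono fun z hz =>
      ⟨⟨by simpa using hz.1, by simp⟩, sub_ne_zero.2 hz.2⟩))
  filter_upwards [h] with w hw
  obtain ⟨x, ⟨h1, h2⟩, h3⟩ := hw
  refine ⟨x + p, ⟨h1, hρW ?_⟩, ?_⟩
  · simpa using ((mem_ball_prod ρ _).1 h3).1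
  · have h4 : g (x + p) - g p - w = 0 := h2
    linear_combination h4

theorem unc {Z : Set E} (hZ : An univ Z) {g : E → ℂ} (hg : Differentiable ℂ g) {p : E}
    (hfr : ∃ᶠ z in 𝓝 p, z ∈ Z ∧ g z ≠ g p) {W : Set E} (hW : W ∈ 𝓝 p) {O : Set ℂ}
    (hO : IsOpen O) (hp : g p ∈ closure O) : ¬ (g '' {z | z ∈ Z ∩ W ∧ g z ∈ O}).Countable := by
  intro hc
  obtain ⟨ε, hε, hεb⟩ := Metric.mem_nhds_iff.1 (eventually_nhdsWithin_iff.1 (proj hZ hg hfr hW))
  have h1 : (ball (g p) ε ∩ O).Nonempty := mem_closure_iff.1 hp _ isOpen_ball (mem_ball_self hε)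
  obtain ⟨w, hw, hw'⟩ := ((hc.insert (g p)).dense_compl ℂ).exists_mem_open
    (isOpen_ball.inter hO) h1
  obtain ⟨z, hz, hz'⟩ := hεb (show w - g p ∈ ball (0 : ℂ) ε by simpa [dist_eq_norm] using hw'.1)
    (fun h => hw (Or.inl (sub_eq_zero.1 h)))
  have h2 : g z = w := by rw [hz']; ring
  exact hw (Or.inr ⟨z, ⟨hz, h2 ▸ hw'.2⟩, h2⟩)

end Pool.Agent.MP_765488_mp.H55
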