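import Pool.Agent.MP_765488_mp.h55.Count

/-! Real equilibria: finiteness from the countability of the complex equilibrium set. -/

set_option autoImplicit false

open Set Complex Filter Topology Metric Function

namespace Pool.Agent.MP_765488_mp.H55

variable {d : ℕ} {ι : Type} [Fintype ι]

/-- Real equilibria of the field `∑ q i * |x - a i| ^ (-2 β) * (x - a i)`. -/
def Eqs (a : ι → RE d) (q : ι → ℝ) (β : ℝ) : Set (RE d) :=
  {x | (∀ i, x ≠ a i) ∧ ∑ i, (q i * ‖x - a i‖ ^ (-(2 * β))) • (x - a i) = 0}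

/-- The lift of a real point. -/
noncomputable def lift (a : ι → RE d) (x : RE d) : CE d × (ι → ℂ) :=
  (cx x, fun i => (Real.log (‖x - a i‖ ^ 2) : ℂ))

omit [Fintype ι] in
theorem yv_lift {a : ι → RE d} {x : RE d} (hx : ∀ i, x ≠ a i) (q : ι → ℝ) (β : ℝ) (i : ι) :
    yv β (fun i => (q i : ℂ)) (lift a x) i = ((q i * ‖x - a i‖ ^ (-(2 * β)) : ℝ) : ℂ) := by
  have hn : 0 < ‖x - a i‖ := norm_pos_iff.2 (sub_ne_zero.2 (hx i))
  simp only [yv, lift]
  rw [Real.rpow_def_of_pos hn, Real.log_pow]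
  push_cast
  congr 2
  ring

theorem rho_cx (a x : RE d) : rho a (cx x) = ((‖x - a‖ ^ 2 : ℝ) : ℂ) := by
  rw [EuclideanSpace.real_norm_sq_eq]
  simp [rho, cx]

theorem lift_mem {a : ι → RE d} {q : ι → ℝ} {β : ℝ} {x : RE d} (hx : x ∈ Eqs a q β) :
    lift a x ∈ Zc a β fun i => (q i : ℂ) := by
  refine ⟨fun i => ?_, fun k => ?_⟩
  · have hn : 0 < ‖x - a i‖ ^ 2 := pow_pos (norm_pos_iff.2 (sub_ne_zero.2 (hx.1 i))) 2
    simp only [lift]
    rw [rho_cx, ← ofReal_exp, Real.exp_log hn, sub_self]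
  · have h := congrArg (fun v : RE d => ((v k : ℝ) : ℂ)) hx.2
    simp only [yv_lift hx.1]
    simpa [lift, cx] using h

theorem cont_cx : Continuous (cx : RE d → CE d) := by
  unfold cx
  fun_prop

theorem cx_inj : Injective (cx : RE d → CE d) := fun x y h => by
  ext k
  simpa [cx] using congrArg (fun v : CE d => v k) h

theorem eqs_smul {a : ι → RE d} {q : ι → ℝ} {β : ℝ} {x : RE d} (hx : x ∈ Eqs a q β) {s : ℝ}
    (hs : 0 < s) : s • x ∈ Eqs (fun i => s • a i) q β := by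
  refine ⟨fun i h => hx.1 i (smul_right_injective _ hs.ne' h), ?_⟩
  have h := congrArg (fun v => (s ^ (-(2 * β)) * s) • v) hx.2
  simp only [Finset.smul_sum, smul_zero, smul_smul] at h
  rw [← h]
  refine Finset.sum_congr rfl fun i _ => ?_
  rw [← smul_sub, norm_smul, Real.norm_of_nonneg hs.le, Real.mul_rpow hs.le (norm_nonneg _),
    smul_smul]
  congr 1
  ring

theorem not_acc {a : ι → RE d} {q : ι → ℝ} {β : ℝ} (ha : Injective a) (hβ : 1 / 2 < β) {j : ι}
    (hq : q j ≠ 0) : ¬ ∃ᶠ x in 𝓝 (a j), x ∈ Eqs a q β := by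
  classical
  intro h
  let F : RE d → ℝ := fun x => ‖x - a j‖ ^ (2 * β - 1) *
    ‖∑ i ∈ Finset.univ.erase j, (q i * ‖x - a i‖ ^ (-(2 * β))) • (x - a i)‖
  have hF : ContinuousAt F (a j) := by
    refine ContinuousAt.mul (ContinuousAt.rpow_const (by fun_prop) (Or.inr (by linarith))) ?_
    refine ContinuousAt.norm (tendsto_finsetSum _ fun i hi => ?_)
    refine ContinuousAt.smul (ContinuousAt.mul continuousAt_const
      (ContinuousAt.rpow_const (by fun_prop) (Or.inl ?_))) (by fun_prop)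
    exact norm_ne_zero_iff.2 (sub_ne_zero.2 fun e => Finset.ne_of_mem_erase hi (ha e).symm)
  have hF0 : F (a j) = 0 := by
    simp only [F, sub_self, norm_zero]
    rw [Real.zero_rpow (by linarith), zero_mul]
  obtain ⟨x, hx, hx'⟩ := (h.and_eventually (hF.eventually_lt_const
    (show F (a j) < |q j| from hF0 ▸ abs_pos.2 hq))).exists
  have hn : 0 < ‖x - a j‖ := norm_pos_iff.2 (sub_ne_zero.2 (hx.1 j))
  have h1 := hx.2
  rw [← Finset.add_sum_erase _ _ (Finset.mem_univ j), add_comm, add_eq_zero_iff_eq_neg] at h1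
  simp only [F] at hx'
  rw [h1, norm_neg, norm_smul, norm_mul, Real.norm_of_nonneg (Real.rpow_nonneg hn.le _),
    Real.rpow_sub_one hn.ne', Real.rpow_neg hn.le, Real.norm_eq_abs] at hx'
  have h2 : 0 < ‖x - a j‖ ^ (2 * β) := Real.rpow_pos_of_pos hn _
  refine hx'.ne ?_
  field_simp

theorem exists_cond_lift {a : ι → RE d} {q : ι → ℝ} {β : ℝ} (ha : Injective a) (hβ : 1 / 2 < β)
    (hq : ∀ j, q j ≠ 0) {R : ℝ} (hb : Eqs a q β ⊆ closedBall 0 R) (hi : (Eqs a q β).Infinite) :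
    ∃ x, (∀ i, x ≠ a i) ∧ lift a x ∈ Cond (Zc a β fun i => (q i : ℂ)) := by
  obtain ⟨x, -, hx⟩ := hi.exists_accPt_of_subset_isCompact (isCompact_closedBall 0 R) hb
  rw [accPt_iff_frequently] at hx
  have hxa : ∀ i, x ≠ a i := fun i e => not_acc ha hβ (hq i) (e ▸ hx.mono fun y hy => hy.2)
  refine ⟨x, hxa, acc (an_Zc a β _) ?_⟩
  have hc : ContinuousAt (lift a) x := by
    refine cont_cx.continuousAt.prodMk (continuousAt_pi.2 fun i => ?_)
    refine continuous_ofReal.continuousAt.comp (ContinuousAt.log (by fun_prop) ?_)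
    exact pow_ne_zero 2 (norm_ne_zero_iff.2 (sub_ne_zero.2 (hxa i)))
  exact hc.frequently (hx.mono fun y hy =>
    ⟨lift_mem hy.2, fun e => hy.1 (cx_inj (congrArg Prod.fst e))⟩)

theorem finite_pos [Nonempty ι] {a : ι → RE d} {q : ι → ℝ} {β : ℝ} (ha : Injective a)
    (hβ : 1 / 2 < β) (hq : ∀ j, 0 < q j) : (Eqs a q β).Finite := by
  by_contra hi
  have hb : Eqs a q β ⊆ closedBall 0 (∑ i, ‖a i‖) := fun x hx => by
    by_contra hn
    rw [mem_closedBall_zero_iff, not_le] at hn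
    have h1 := congrArg (fun v => inner ℝ v x) hx.2
    simp only [sum_inner, inner_smul_left, inner_zero_left, conj_trivial] at h1
    refine (Finset.sum_pos (fun i _ => mul_pos (mul_pos (hq i) (Real.rpow_pos_of_pos
      (norm_pos_iff.2 (sub_ne_zero.2 (hx.1 i))) _)) ?_) Finset.univ_nonempty).ne' h1
    have h2 : ‖a i‖ ≤ ∑ i, ‖a i‖ :=
      Finset.single_le_sum (f := fun i => ‖a i‖) (fun i _ => norm_nonneg _) (Finset.mem_univ i)
    rw [inner_sub_left, real_inner_self_eq_norm_sq]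
    nlinarith [real_inner_le_norm (a i) x, norm_nonneg (a i)]
  obtain ⟨x, hx, hc⟩ := exists_cond_lift ha hβ (fun j => (hq j).ne') hb hi
  refine hc _ ?_ (countable_ne ha hβ fun i => ofReal_ne_zero.2 (hq i).ne')
  refine (Differentiable.fun_sum fun i _ => diff_yv β _ i).continuous.continuousAt.eventually_ne ?_
  simp only [yv_lift hx]
  rw [← ofReal_sum, ofReal_ne_zero]
  exact (Finset.sum_pos (fun i _ => mul_pos (hq i) (Real.rpow_pos_of_pos
    (norm_pos_iff.2 (sub_ne_zero.2 (hx i))) _)) Finset.univ_nonempty).ne'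

/-- The complex equilibrium set in the chart at infinity. -/
def Zi (a : ι → RE d) (β : ℝ) (c : ι → ℂ) : Set ((CE d × (ι → ℂ)) × ℂ) :=
  ({z | ∑ k, z.1.1 k ^ 2 - 1 = 0} ∩
    {z | ∀ i, exp (z.1.2 i) - ∑ k, (z.1.1 k - z.2 * (a i k : ℂ)) ^ 2 = 0}) ∩
    {z | ∀ k, ∑ i, yv β c z.1 i * (z.1.1 k - z.2 * (a i k : ℂ)) = 0}

theorem an_Zi (a : ι → RE d) (β : ℝ) (c : ι → ℂ) : An univ (Zi a β c) := by
  have h : ∀ k, Differentiable ℂ fun z : (CE d × (ι → ℂ)) × ℂ => z.1.1 k := fun k =>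
    (diff_coord k).comp (differentiable_fst.comp differentiable_fst)
  refine ((an_zero' ?_).inter (an_zero fun i => ?_)).inter (an_zero fun k => ?_)
  · exact ((Differentiable.fun_sum fun k _ => (h k).pow 2).sub_const 1).differentiableOn
  · exact (Differentiable.sub (by fun_prop) (Differentiable.fun_sum fun k _ =>
      ((h k).sub (differentiable_snd.mul_const _)).pow 2)).differentiableOn
  · exact (Differentiable.fun_sum fun i _ => ((diff_yv β c i).comp differentiable_fst).mul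
      ((h k).sub (differentiable_snd.mul_const _))).differentiableOn

theorem countable_Zi {a : ι → RE d} {β : ℝ} {c : ι → ℂ} (h : (Zc a β c).Countable) :
    (Prod.snd '' Zi a β c).Countable := by
  let f : CE d × (ι → ℂ) → ℂ := fun z => (∑ k, z.1 k ^ 2)⁻¹ ^ ((2 : ℕ) : ℂ)⁻¹
  refine (((h.image f).union (h.image fun z => -f z)).insert 0).mono ?_
  rintro _ ⟨⟨⟨ξ, u⟩, s⟩, ⟨⟨h1, h2⟩, h3⟩, rfl⟩
  by_cases hs : s = 0
  · exact Or.inl hs
  right
  simp only [mem_ofPred_eq, yv] at h1 h2 h3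
  have hm : (s⁻¹ • ξ, fun i => u i - 2 * log s) ∈ Zc a β c := by
    refine ⟨fun i => ?_, fun k => ?_⟩
    · have h4 : exp (2 * log s) = s ^ 2 := by
        rw [show (2 : ℂ) * log s = (2 : ℕ) * log s by simp, exp_nat_mul, exp_log hs]
      simp only [rho, PiLp.smul_apply, smul_eq_mul]
      rw [exp_sub, sub_eq_zero.1 (h2 i), h4, Finset.sum_div, ← Finset.sum_sub_distrib]
      refine Finset.sum_eq_zero fun k _ => ?_
      field_simp
      ring
    · have h4 := congrArg (fun w => exp (β * (2 * log s)) * s⁻¹ * w) (h3 k)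
      simp only [mul_zero, Finset.mul_sum] at h4
      rw [← h4]
      refine Finset.sum_congr rfl fun i _ => ?_
      simp only [yv, PiLp.smul_apply, smul_eq_mul]
      rw [show -(β : ℂ) * (u i - 2 * log s) = β * (2 * log s) + -β * u i by ring, exp_add]
      field_simp
  have h5 : s ^ 2 = f (s⁻¹ • ξ, fun i => u i - 2 * log s) ^ 2 := by
    simp only [f]
    rw [cpow_nat_inv_pow _ two_ne_zero]
    simp only [PiLp.smul_apply, smul_eq_mul, mul_pow, ← Finset.mul_sum, sub_eq_zero.1 h1]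
    simp
  rcases sq_eq_sq_iff_eq_or_eq_neg.1 h5 with h6 | h6
  · exact Or.inl ⟨_, hm, h6.symm⟩
  · exact Or.inr ⟨_, hm, h6.symm⟩

theorem finite_geo [Nonempty ι] {a : ι → RE d} {q : ι → ℝ} {β : ℝ} (ha : Injective a)
    (hβ : 1 / 2 < β) (hq : ∀ j, q j ≠ 0) (hg : Geo a) : (Eqs a q β).Finite := by
  have hq' : ∀ i, (q i : ℂ) ≠ 0 := fun i => ofReal_ne_zero.2 (hq i)
  have hZ : (Zc a β fun i => (q i : ℂ)).Countable :=
    ((countable_ne ha hβ hq').union (countable_eq ha hβ hq' hg)).mono fun z hz => by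
      by_cases h : ∑ i, yv β (fun i => (q i : ℂ)) z i = 0
      · exact Or.inr ⟨hz, h⟩
      · exact Or.inl ⟨hz, h⟩
  by_contra hi
  by_cases hb : ∃ R, Eqs a q β ⊆ closedBall 0 R
  · obtain ⟨R, hb⟩ := hb
    obtain ⟨x, -, hc⟩ := exists_cond_lift ha hβ hq hb hi
    exact hc univ univ_mem (hZ.mono inter_subset_left)
  simp only [not_exists, not_subset, mem_closedBall_zero_iff, not_le] at hb
  choose x hx hxn using fun n : ℕ => hb n
  have hpos : ∀ n, 0 < ‖x n‖ := fun n => (Nat.cast_nonneg n).trans_lt (hxn n)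
  have hsph : ∀ n, ‖x n‖⁻¹ • x n ∈ sphere (0 : RE d) 1 := fun n => by
    rw [mem_sphere_zero_iff_norm, norm_smul, norm_inv, norm_norm, inv_mul_cancel₀ (hpos n).ne']
  obtain ⟨ξ, hξ, φ, hφ, hlim⟩ := (isCompact_sphere (0 : RE d) 1).tendsto_subseq hsph
  have hs : Tendsto (fun n => ‖x (φ n)‖⁻¹) atTop (𝓝 0) :=
    tendsto_inv_atTop_zero.comp (tendsto_atTop_mono (fun n => (hxn (φ n)).le)
      (tendsto_natCast_atTop_atTop.comp hφ.tendsto_atTop))
  let T : RE d × ℝ → (CE d × (ι → ℂ)) × ℂ := fun w => (lift (fun i => w.2 • a i) w.1, w.2)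
  have hT : ContinuousAt T (ξ, 0) := by
    refine ContinuousAt.prodMk (ContinuousAt.prodMk (cont_cx.comp continuous_fst).continuousAt
      (continuousAt_pi.2 fun i => ?_)) (by fun_prop)
    refine continuous_ofReal.continuousAt.comp (ContinuousAt.log (by fun_prop) ?_)
    simp [mem_sphere_zero_iff_norm.1 hξ]
  have hfr : ∃ᶠ z in 𝓝 (T (ξ, 0)), z ∈ Zi a β (fun i => (q i : ℂ)) ∧ z.2 ≠ (T (ξ, 0)).2 := by
    refine (hT.tendsto.comp (hlim.prodMk_nhds hs)).frequently (Frequently.of_forall fun n => ?_)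
    have h1 := lift_mem (eqs_smul (hx (φ n)) (inv_pos.2 (hpos (φ n))))
    refine ⟨⟨⟨?_, fun i => ?_⟩, fun k => ?_⟩, by simpa [T] using (hpos _).ne'⟩
    · have h2 := rho_cx 0 (‖x (φ n)‖⁻¹ • x (φ n))
      rw [sub_zero, mem_sphere_zero_iff_norm.1 (hsph _)] at h2
      simpa [rho, T, lift, sub_eq_zero] using h2
    · simpa [rho, T] using h1.1 i
    · simpa [T] using h1.2 k
  exact unc (an_Zi a β _) differentiable_snd hfr univ_mem isOpen_univ (by simp)
    ((countable_Zi hZ).mono (image_mono fun z hz => hz.1.1))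

end Pool.Agent.MP_765488_mp.H55
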