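import Pool.Agent.MP_765488_mp.h55.Real

/-! The gradient of the Riesz potential, the convex range of exponents, and the exponent `-1`. -/

set_option autoImplicit false

open Set Filter Topology Metric Function

namespace Pool.Agent.MP_765488_mp.H55

variable {d : ℕ} {ι : Type} [Fintype ι]

theorem hasFDerivAt_rad {c x : RE d} (hx : x ≠ c) {g : ℝ → ℝ} {g' : ℝ}
    (hg : HasDerivAt g g' ‖x - c‖) :
    HasFDerivAt (fun y => g ‖y - c‖) (innerSL ℝ ((g' * ‖x - c‖⁻¹) • (x - c))) x := by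
  have hn : ‖x - c‖ ≠ 0 := norm_ne_zero_iff.2 (sub_ne_zero.2 hx)
  have h1 : HasFDerivAt (fun y : RE d => ‖y - c‖ ^ 2) (2 • innerSL ℝ (x - c)) x := by
    simpa using ((hasFDerivAt_id x).sub_const c).norm_sq
  have h2 := h1.sqrt (pow_ne_zero 2 hn)
  simp only [Real.sqrt_sq (norm_nonneg _)] at h2
  refine (hg.comp_hasFDerivAt x h2).congr_fderiv ?_
  rw [two_smul, ← two_smul ℝ, smul_smul, smul_smul, map_smul]
  congr 1
  field_simp

theorem grad_rad {a : ι → RE d} {x : RE d} (hx : ∀ i, x ≠ a i) {g : ι → ℝ → ℝ} {g' : ι → ℝ}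
    (hg : ∀ i, HasDerivAt (g i) (g' i) ‖x - a i‖) :
    gradient (fun y => ∑ i, g i ‖y - a i‖) x = ∑ i, (g' i * ‖x - a i‖⁻¹) • (x - a i) := by
  refine HasGradientAt.gradient (hasGradientAt_iff_hasFDerivAt.2 ?_)
  refine (HasFDerivAt.fun_sum fun i _ => hasFDerivAt_rad (hx i) (hg i)).congr_fderiv ?_
  rw [map_sum]
  rfl

theorem eqs_eq (a : ι → RE d) (q : ι → ℝ) (α : ℝ) :
    {x : RE d | (∀ i, x ≠ a i) ∧ gradient (fun y : RE d =>
      if α = 0 then -∑ i, q i * Real.log ‖y - a i‖ else ∑ i, q i * ‖y - a i‖ ^ (-α)) x = 0} =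
      Eqs a q ((α + 2) / 2) := by
  ext x
  refine and_congr_right fun hx => ?_
  have hn : ∀ i, 0 < ‖x - a i‖ := fun i => norm_pos_iff.2 (sub_ne_zero.2 (hx i))
  have he : -(2 * ((α + 2) / 2)) = -α - 1 - 1 := by ring
  rw [he]
  by_cases h : α = 0
  · simp only [h, if_true, ← Finset.sum_neg_distrib]
    rw [grad_rad hx (g := fun i t => -(q i * Real.log t))
      fun i => ((Real.hasDerivAt_log (hn i).ne').const_mul (q i)).neg, ← neg_eq_zero,
      ← Finset.sum_neg_distrib]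
    refine Eq.congr_left (Finset.sum_congr rfl fun i _ => ?_)
    rw [← neg_smul, Real.rpow_sub_one (hn i).ne', Real.rpow_sub_one (hn i).ne', neg_zero,
      Real.rpow_zero]
    congr 1
    ring
  · simp only [h, if_false]
    rw [grad_rad hx (g := fun i t => q i * t ^ (-α))
      fun i => (Real.hasDerivAt_rpow_const (Or.inl (hn i).ne')).const_mul (q i),
      ← smul_eq_zero_iff_right (neg_ne_zero.2 h) (m := ∑ i, (q i * ‖x - a i‖ ^ (-α - 1 - 1)) • _),
      Finset.smul_sum]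
    refine Eq.congr_left (Finset.sum_congr rfl fun i _ => ?_)
    rw [smul_smul, Real.rpow_sub_one (hn i).ne' (-α - 1)]
    congr 1
    ring

theorem mono_pos {u v : RE d} (hu : u ≠ 0) (hv : v ≠ 0) (huv : u ≠ v) {γ : ℝ} (hγ : -1 < γ) :
    0 < inner ℝ (‖u‖ ^ γ • u - ‖v‖ ^ γ • v) (u - v) := by
  have hu' := norm_pos_iff.2 hu
  have hv' := norm_pos_iff.2 hv
  have hA := Real.rpow_pos_of_pos hu' γ
  have hB := Real.rpow_pos_of_pos hv' γ
  rcases eq_or_ne ‖u‖ ‖v‖ with h | h
  · rw [h, ← smul_sub, inner_smul_left, real_inner_self_eq_norm_sq]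
    exact mul_pos hB (pow_pos (norm_pos_iff.2 (sub_ne_zero.2 huv)) 2)
  have h1 : 0 < (‖u‖ ^ γ * ‖u‖ - ‖v‖ ^ γ * ‖v‖) * (‖u‖ - ‖v‖) := by
    rw [← Real.rpow_add_one hu'.ne', ← Real.rpow_add_one hv'.ne']
    rcases lt_or_gt_of_ne h with h | h
    · exact mul_pos_of_neg_of_neg (sub_neg.2 (Real.rpow_lt_rpow hu'.le h (by linarith)))
        (sub_neg.2 h)
    · exact mul_pos (sub_pos.2 (Real.rpow_lt_rpow hv'.le h (by linarith))) (sub_pos.2 h)
  simp only [inner_sub_left, inner_sub_right, inner_smul_left, real_inner_self_eq_norm_sq,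
    conj_trivial, real_inner_comm u v]
  nlinarith [mul_le_mul_of_nonneg_left (real_inner_le_norm u v) (add_pos hA hB).le]

theorem subsingleton_eqs [Nonempty ι] {a : ι → RE d} {q : ι → ℝ} {β : ℝ} (hβ : β < 1 / 2)
    (hq : ∀ j, 0 < q j) : (Eqs a q β).Subsingleton := by
  intro x hx y hy
  by_contra hxy
  have h1 := congrArg (fun v => inner ℝ v (x - y)) (sub_eq_zero.2 (hx.2.trans hy.2.symm))
  simp only [← Finset.sum_sub_distrib, sum_inner, inner_zero_left] at h1
  refine (Finset.sum_pos (fun i _ => ?_) Finset.univ_nonempty).ne' h1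
  have h2 := mono_pos (sub_ne_zero.2 (hx.1 i)) (sub_ne_zero.2 (hy.1 i))
    (fun e => hxy (sub_left_injective e)) (γ := -(2 * β)) (by linarith)
  rw [sub_sub_sub_cancel_right] at h2
  rw [mul_smul, mul_smul, ← smul_sub, inner_smul_left]
  exact mul_pos (hq i) h2

theorem infinite_seg {e : RE d} (he : ‖e‖ = 1) :
    (Eqs ![0, e] (fun _ => 1) (1 / 2)).Infinite := by
  have he0 : e ≠ 0 := norm_ne_zero_iff.1 (by rw [he]; exact one_ne_zero)
  refine infinite_of_injOn_mapsTo (f := fun t : ℝ => t • e) (smul_left_injective ℝ he0).injOn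
    (fun t ht => ⟨fun i => ?_, ?_⟩) (Ioo_infinite zero_lt_one)
  · fin_cases i
    · simpa [he0] using ht.1.ne'
    · intro h
      exact ht.2.ne (smul_left_injective ℝ he0 (h.trans (one_smul ℝ e).symm))
  · have h1 : t • e - e = (t - 1) • e := by rw [sub_smul, one_smul]
    have h2 : t - 1 < 0 := sub_neg.2 ht.2
    simp only [Fin.sum_univ_two, Matrix.cons_val_zero, Matrix.cons_val_one, sub_zero, h1,
      norm_smul, he, smul_smul, Real.norm_eq_abs, abs_of_pos ht.1, abs_of_neg h2, ← add_smul]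
    norm_num [Real.rpow_neg_one]
    left
    have h3 := ht.1.ne'
    have h4 : 1 - t ≠ 0 := by linarith
    field_simp
    ring

end Pool.Agent.MP_765488_mp.H55
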