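import Mathlib
import Pool.Agent.MP_765488_mp.h55.Side

set_option autoImplicit false

namespace Pool.Agent.MP_765488_mp.RieszRange

open Pool.Agent.MP_765488_mp.H55

/-- Fix a dimension `d ≥ 1` and a real exponent `α`. Every configuration of `N ≥ 1` positive
charges `q i` at distinct points `a i` of Euclidean `d`-space has only finitely many equilibria
for the Riesz potential `∑ q i * |y - a i| ^ (-α)` (`-∑ q i * log |y - a i|` if `α = 0`) if and
only if `α ≠ -1`. The Newtonian potential is the case `α = d - 2`. -/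
theorem result (d : ℕ) (hd : 1 ≤ d) (α : ℝ) :
    (∀ (N : ℕ), 1 ≤ N → ∀ (a : Fin N → EuclideanSpace ℝ (Fin d)), Function.Injective a →
      ∀ q : Fin N → ℝ, (∀ i, 0 < q i) →
        {x : EuclideanSpace ℝ (Fin d) | (∀ i, x ≠ a i) ∧
          gradient (fun y : EuclideanSpace ℝ (Fin d) =>
            if α = 0 then -∑ i, q i * Real.log ‖y - a i‖
            else ∑ i, q i * ‖y - a i‖ ^ (-α)) x = 0}.Finite) ↔ α ≠ -1 := by
  constructor
  · rintro h rfl
    have he : ‖(EuclideanSpace.single (⟨0, hd⟩ : Fin d) (1 : ℝ))‖ = 1 := by simp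
    have h1 := h 2 one_le_two ![0, EuclideanSpace.single (⟨0, hd⟩ : Fin d) (1 : ℝ)] (by
      intro i j hij
      have h2 := congrArg norm hij
      fin_cases i <;> fin_cases j <;> first | rfl | simp at h2) (fun _ => 1) fun _ => one_pos
    rw [eqs_eq, show ((-1 : ℝ) + 2) / 2 = 1 / 2 by norm_num] at h1
    exact infinite_seg he h1
  · intro hα N hN a ha q hq
    have : Nonempty (Fin N) := ⟨⟨0, hN⟩⟩
    rw [eqs_eq]
    rcases lt_or_gt_of_ne hα with h | h
    · exact (subsingleton_eqs (by linarith) hq).finite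
    · exact finite_pos ha (by linarith) hq

/-- The question as posed: for `d ≥ 2` and `N ≥ 1` positive charges at distinct points, the
Newtonian potential has only finitely many points of equilibrium. -/
theorem posed (d N : ℕ) (hd : 2 ≤ d) (hN : 1 ≤ N)
    (a : Fin N → EuclideanSpace ℝ (Fin d)) (ha : Function.Injective a)
    (q : Fin N → ℝ) (hq : ∀ i, 0 < q i) :
    {x : EuclideanSpace ℝ (Fin d) | (∀ i, x ≠ a i) ∧
      gradient (fun y : EuclideanSpace ℝ (Fin d) =>
        if d = 2 then -∑ i, q i * Real.log ‖y - a i‖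
        else ∑ i, q i / ‖y - a i‖ ^ (d - 2)) x = 0}.Finite := by
  obtain ⟨e, rfl⟩ : ∃ e, d = e + 2 := ⟨d - 2, by omega⟩
  have h := (result (e + 2) (by omega) e).2
    (by linarith [Nat.cast_nonneg (α := ℝ) e] : (-1 : ℝ) < e).ne' N hN a ha q hq
  simpa [Real.rpow_neg, div_eq_mul_inv] using h

end Pool.Agent.MP_765488_mp.RieszRange
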